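import Mathlib

/-!
# A lower bound for the Hausdorff dimension of a compact set from measures of truncated energy
-/

set_option autoImplicit false

open MeasureTheory Set Metric
open scoped ENNReal NNReal

namespace Pool.Agent.H58.BR

/-- Efficient covers of a set of Hausdorff dimension less than `α`, sorted by scales. -/
theorem cover {X : Type*} [MetricSpace X] [MeasurableSpace X] [BorelSpace X] (K : Set X)
    (α : ℝ≥0) (h : dimH K < α) (k0 : ℕ) :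
    ∃ (t : ℕ → Set X) (κ : ℕ → ℕ), K ⊆ ⋃ i, t i ∧ (∀ i, k0 ≤ κ i) ∧
      (∀ i, ∀ x ∈ t i, ∀ y ∈ t i, dist x y ≤ (1 / 2 : ℝ) ^ κ i) ∧
      ∀ (k : ℕ) (S : Finset ℕ), (∀ i ∈ S, κ i = k) →
        (S.card : ℝ) ≤ (2 : ℝ) ^ ((α : ℝ) * (k + 1)) := by
  have hα : (0 : ℝ) < α := by
    have h1 : (0 : ℝ≥0∞) < α := lt_of_le_of_lt bot_le h
    exact_mod_cast h1
  obtain ⟨u, hu⟩ : ∃ u : ℝ, u = (1 / 2 : ℝ) ^ (α : ℝ) := ⟨_, rfl⟩
  have hu0 : 0 < u := by rw [hu]; positivity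
  have hu1 : u < 1 := by rw [hu]; exact Real.rpow_lt_one (by norm_num) (by norm_num) hα
  have h0 : Measure.hausdorffMeasure (α : ℝ) K = 0 := hausdorffMeasure_of_dimH_lt h
  rw [Measure.hausdorffMeasure_apply] at h0
  obtain ⟨ε, hε⟩ : ∃ ε : ℝ≥0∞, ε = ENNReal.ofReal (u ^ k0) / 2 := ⟨_, rfl⟩
  have hεpos : 0 < ε := by
    rw [hε]
    exact ENNReal.half_pos (by
      rw [Ne, ENNReal.ofReal_eq_zero, not_le]
      positivity)
  have h1 : (⨅ (t : ℕ → Set X) (_ : K ⊆ ⋃ n, t n) (_ : ∀ n, ediam (t n) ≤ 1),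
      ∑' n, ⨆ _ : (t n).Nonempty, ediam (t n) ^ (α : ℝ)) < ε := by
    refine lt_of_le_of_lt ?_ hεpos
    rw [← h0]
    exact le_iSup₂_of_le 1 one_pos le_rfl
  simp only [iInf_lt_iff] at h1
  obtain ⟨t, ht1, ht2, ht3⟩ := h1
  obtain ⟨δ, hδ0, hδs⟩ := ENNReal.exists_pos_sum_of_countable' hεpos.ne' ℕ
  obtain ⟨y, hy⟩ : ∃ y : ℕ → ℝ≥0∞,
    y = fun i => (⨆ _ : (t i).Nonempty, ediam (t i) ^ (α : ℝ)) + δ i := ⟨_, rfl⟩
  have hys : ∑' i, y i ≤ ENNReal.ofReal (u ^ k0) := by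
    rw [hy, ENNReal.tsum_add]
    calc _ ≤ ε + ε := add_le_add ht3.le hδs.le
      _ = _ := by rw [hε]; exact ENNReal.add_halves _
  have hyle : ∀ i, y i ≤ ENNReal.ofReal (u ^ k0) := fun i => (ENNReal.le_tsum i).trans hys
  have hyt : ∀ i, y i ≠ ⊤ := fun i => ne_top_of_le_ne_top ENNReal.ofReal_ne_top (hyle i)
  have hypos : ∀ i, 0 < y i := fun i => by
    rw [hy]
    exact lt_of_lt_of_le (hδ0 i) le_add_self
  have hY0 : ∀ i, 0 < (y i).toReal := fun i => ENNReal.toReal_pos (hypos i).ne' (hyt i)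
  have hYle : ∀ i, (y i).toReal ≤ u ^ k0 := fun i =>
    ENNReal.toReal_le_of_le_ofReal (by positivity) (hyle i)
  have hex : ∀ i, ∃ k : ℕ, u ^ (k + 1) < (y i).toReal ∧ (y i).toReal ≤ u ^ k := fun i =>
    exists_nat_pow_near_of_lt_one (hY0 i) ((hYle i).trans (pow_le_one₀ hu0.le hu1.le)) hu0 hu1
  choose κ hκ1 hκ2 using hex
  refine ⟨t, κ, ht1, ?_, ?_, ?_⟩
  · intro i
    by_contra hc
    push Not at hc
    have h2 : u ^ k0 ≤ u ^ (κ i + 1) := pow_le_pow_of_le_one hu0.le hu1.le hc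
    have h3 := hκ1 i
    have h4 := hYle i
    linarith
  · intro i x hx z hz
    have h2 : ediam (t i) ^ (α : ℝ) ≤ ENNReal.ofReal (u ^ κ i) := by
      have h3 : ediam (t i) ^ (α : ℝ) ≤ y i := by
        rw [hy]
        exact le_trans (le_iSup (fun _ : (t i).Nonempty => ediam (t i) ^ (α : ℝ)) ⟨x, hx⟩)
          le_self_add
      exact h3.trans ((ENNReal.le_ofReal_iff_toReal_le (hyt i) (by positivity)).2 (hκ2 i))
    have h3 : edist x z ^ (α : ℝ) ≤ ENNReal.ofReal (u ^ κ i) :=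
      (ENNReal.rpow_le_rpow (edist_le_ediam_of_mem hx hz) hα.le).trans h2
    have h4 : u ^ κ i = ((1 / 2 : ℝ) ^ κ i) ^ (α : ℝ) := by
      rw [hu, ← Real.rpow_natCast, ← Real.rpow_natCast, ← Real.rpow_mul (by norm_num),
        ← Real.rpow_mul (by norm_num), mul_comm]
    rw [edist_dist, ENNReal.ofReal_rpow_of_nonneg dist_nonneg hα.le, h4] at h3
    have h5 := (ENNReal.ofReal_le_ofReal_iff (by positivity)).1 h3
    exact (Real.rpow_le_rpow_iff dist_nonneg (by positivity) hα).1 h5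
  · intro k S hS
    have h2 : (S.card : ℝ) * u ^ (k + 1) ≤ 1 := by
      calc (S.card : ℝ) * u ^ (k + 1) = ∑ _i ∈ S, u ^ (k + 1) := by
            rw [Finset.sum_const, nsmul_eq_mul]
        _ ≤ ∑ i ∈ S, (y i).toReal := Finset.sum_le_sum fun i hi => by
            rw [← hS i hi]
            exact (hκ1 i).le
        _ = (∑ i ∈ S, y i).toReal := (ENNReal.toReal_sum fun i _ => hyt i).symm
        _ ≤ 1 := by
            refine ENNReal.toReal_le_of_le_ofReal zero_le_one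
              ((ENNReal.sum_le_tsum S).trans (hys.trans (ENNReal.ofReal_le_ofReal ?_)))
            exact pow_le_one₀ hu0.le hu1.le
    have h3 : u ^ (k + 1) * (2 : ℝ) ^ ((α : ℝ) * (k + 1)) = 1 := by
      have h4 : u ^ (k + 1) = (1 / 2 : ℝ) ^ ((α : ℝ) * (k + 1)) := by
        rw [hu, ← Real.rpow_natCast, ← Real.rpow_mul (by norm_num)]
        push_cast
        rfl
      rw [h4, ← Real.mul_rpow (by norm_num) (by norm_num)]
      norm_num
    have h4 : 0 < (2 : ℝ) ^ ((α : ℝ) * (k + 1)) := by positivity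
    calc (S.card : ℝ) = (S.card : ℝ) * u ^ (k + 1) * (2 : ℝ) ^ ((α : ℝ) * (k + 1)) := by
          rw [mul_assoc, h3, mul_one]
      _ ≤ 1 * (2 : ℝ) ^ ((α : ℝ) * (k + 1)) := mul_le_mul_of_nonneg_right h2 h4.le
      _ = _ := one_mul _

/-- Pigeonhole for an outer measure and a countable cover. -/
theorem pigeon {X : Type*} [MeasurableSpace X] (μ : Measure X) (V : Set X) (E : ℕ → Set X)
    (hV : V ⊆ ⋃ k, E k) (x ρ : ℝ) (hx : 0 < x) (hρ0 : 0 < ρ) (hρ1 : ρ < 1)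
    (hμ : ENNReal.ofReal x ≤ μ V) : ∃ k : ℕ, ENNReal.ofReal (x * (1 - ρ) / 2 * ρ ^ k) ≤ μ (E k) := by
  by_contra hcon
  push Not at hcon
  have h1 : μ V ≤ ∑' k, μ (E k) := (measure_mono hV).trans (measure_iUnion_le E)
  have h2 : ∑' k, μ (E k) ≤ ∑' k : ℕ, ENNReal.ofReal (x * (1 - ρ) / 2 * ρ ^ k) :=
    ENNReal.tsum_le_tsum fun k => (hcon k).le
  have hpos : 0 < x * (1 - ρ) / 2 := by
    have : 0 < 1 - ρ := by linarith
    positivity
  have hsum : Summable fun k : ℕ => x * (1 - ρ) / 2 * ρ ^ k :=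
    (summable_geometric_of_lt_one hρ0.le hρ1).mul_left _
  have h3 : ∑' k : ℕ, ENNReal.ofReal (x * (1 - ρ) / 2 * ρ ^ k) = ENNReal.ofReal (x / 2) := by
    rw [← ENNReal.ofReal_tsum_of_nonneg (fun k => by positivity) hsum, tsum_mul_left,
      tsum_geometric_of_lt_one hρ0.le hρ1]
    congr 1
    have : 1 - ρ ≠ 0 := by linarith
    field_simp
  have h4 : ENNReal.ofReal x ≤ ENNReal.ofReal (x / 2) := by
    rw [← h3]
    exact hμ.trans (h1.trans h2)
  have h5 := (ENNReal.ofReal_le_ofReal_iff (by positivity)).1 h4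
  linarith

/-- The Cauchy-Schwarz inequality for a finite cover by open sets of diameter at most `δ`. -/
theorem card_energy {X : Type*} [MetricSpace X] [MeasurableSpace X] [BorelSpace X] (μ : Measure X)
    [IsFiniteMeasure μ] (F : Finset ℕ) (U : ℕ → Set X) (hU : ∀ i, IsOpen (U i)) (δ : ℝ)
    (hδ : ∀ i, ∀ x ∈ U i, ∀ y ∈ U i, dist x y ≤ δ) (Y : ℝ) (hY : 0 ≤ Y)
    (hE : ∫⁻ z, μ (closedBall z δ) ∂μ ≤ ENNReal.ofReal Y) :
    (μ (⋃ i ∈ F, U i)).toReal ^ 2 ≤ F.card * Y := by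
  classical
  obtain ⟨U', hU'⟩ : ∃ U' : ℕ → Set X, U' = fun i => if i ∈ F then U i else ∅ := ⟨_, rfl⟩
  obtain ⟨V, hV⟩ : ∃ V : ℕ → Set X, V = disjointed U' := ⟨_, rfl⟩
  have hU'm : ∀ i, MeasurableSet (U' i) := by
    intro i
    rw [hU']
    dsimp only
    split_ifs
    · exact (hU i).measurableSet
    · exact MeasurableSet.empty
  have hVm : ∀ i, MeasurableSet (V i) := by
    intro i
    rw [hV]
    exact MeasurableSet.disjointed hU'm i
  have hVU : ∀ i, V i ⊆ U' i := by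
    intro i
    rw [hV]
    exact disjointed_subset U' i
  have hVU2 : ∀ i, V i ⊆ U i := by
    intro i
    refine (hVU i).trans ?_
    rw [hU']
    dsimp only
    split_ifs
    · exact subset_rfl
    · exact empty_subset _
  have hdisj : Pairwise (Function.onFun Disjoint V) := by
    rw [hV]
    exact disjoint_disjointed U'
  have hunion : (⋃ i ∈ F, U i) ⊆ ⋃ i ∈ F, V i := by
    intro x hx
    have h1 : x ∈ ⋃ i, V i := by
      rw [hV, iUnion_disjointed]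
      simp only [mem_iUnion, exists_prop] at hx ⊢
      obtain ⟨i, hi, hxi⟩ := hx
      refine ⟨i, ?_⟩
      rw [hU']
      simp only [if_pos hi]
      exact hxi
    obtain ⟨i, hi⟩ := mem_iUnion.1 h1
    have h2 := hVU i hi
    rw [hU'] at h2
    simp only at h2
    split_ifs at h2 with h3
    · exact mem_biUnion h3 hi
    · exact absurd h2 (notMem_empty _)
  have h1 : ∑ i ∈ F, μ (V i) * μ (V i) ≤ ENNReal.ofReal Y := by
    calc ∑ i ∈ F, μ (V i) * μ (V i) ≤ ∑ i ∈ F, ∫⁻ z in V i, μ (closedBall z δ) ∂μ := by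
          refine Finset.sum_le_sum fun i _ => ?_
          calc μ (V i) * μ (V i) = ∫⁻ _ in V i, μ (V i) ∂μ := by rw [setLIntegral_const]
            _ ≤ _ := by
              refine setLIntegral_mono' (hVm i) fun z hz => measure_mono fun y hy => ?_
              rw [mem_closedBall]
              exact hδ i y (hVU2 i hy) z (hVU2 i hz)
      _ = ∫⁻ z in ⋃ i ∈ F, V i, μ (closedBall z δ) ∂μ := by
          rw [lintegral_biUnion_finset _ (fun i _ => hVm i)]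
          intro i _ j _ hij
          exact hdisj hij
      _ ≤ ∫⁻ z, μ (closedBall z δ) ∂μ := setLIntegral_le_lintegral _ _
      _ ≤ _ := hE
  have h2 : ∑ i ∈ F, (μ (V i)).toReal ^ 2 ≤ Y := by
    have h3 : ∑ i ∈ F, (μ (V i)).toReal ^ 2 = (∑ i ∈ F, μ (V i) * μ (V i)).toReal := by
      rw [ENNReal.toReal_sum fun i _ => ENNReal.mul_ne_top (measure_ne_top _ _) (measure_ne_top _ _)]
      refine Finset.sum_congr rfl fun i _ => ?_
      rw [ENNReal.toReal_mul, sq]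
    rw [h3]
    exact ENNReal.toReal_le_of_le_ofReal hY h1
  have h3 : (μ (⋃ i ∈ F, U i)).toReal ≤ ∑ i ∈ F, (μ (V i)).toReal := by
    rw [← ENNReal.toReal_sum fun i _ => measure_ne_top _ _]
    refine ENNReal.toReal_mono ?_ ((measure_mono hunion).trans (measure_biUnion_finset_le _ _))
    exact ENNReal.sum_ne_top.2 fun i _ => measure_ne_top _ _
  calc (μ (⋃ i ∈ F, U i)).toReal ^ 2 ≤ (∑ i ∈ F, (μ (V i)).toReal) ^ 2 :=
        pow_le_pow_left₀ ENNReal.toReal_nonneg h3 2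
    _ ≤ F.card * ∑ i ∈ F, (μ (V i)).toReal ^ 2 := sq_sum_le_card_mul_sum_sq
    _ ≤ _ := mul_le_mul_of_nonneg_left h2 (Nat.cast_nonneg _)

/-- **Truncated energy.** If for every `r₀` a compact set carries a measure of mass at least `c`
with `∫ μ (B(z, r)) dμ(z) ≤ C r ^ s` for `r₀ ≤ r ≤ 1`, its Hausdorff dimension is at least `s`. -/
theorem le_dimH_of_truncated {X : Type*} [MetricSpace X] [MeasurableSpace X] [BorelSpace X]
    {K : Set X} (hK : IsCompact K) {s c C : ℝ} (hc : 0 < c) (hC : 0 ≤ C)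
    (h : ∀ r0 : ℝ, 0 < r0 → ∃ μ : Measure X, IsFiniteMeasure μ ∧ ENNReal.ofReal c ≤ μ K ∧
      ∀ r : ℝ, r0 ≤ r → r ≤ 1 → ∫⁻ z, μ (closedBall z r) ∂μ ≤ ENNReal.ofReal (C * r ^ s)) :
    ENNReal.ofReal s ≤ dimH K := by
  by_contra hcon
  push Not at hcon
  -- an intermediate exponent
  obtain ⟨α, hα1, hα2⟩ := ENNReal.lt_iff_exists_nnreal_btwn.1 hcon
  have hαs : (α : ℝ) < s := by
    have h1 : (α : ℝ≥0∞) = ENNReal.ofReal (α : ℝ) := by simp
    rw [h1] at hα2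
    exact (ENNReal.ofReal_lt_ofReal_iff_of_nonneg α.2).1 hα2
  have hα0 : (0 : ℝ) < α := by
    have h1 : (0 : ℝ≥0∞) < α := lt_of_le_of_lt bot_le hα1
    exact_mod_cast h1
  obtain ⟨e, he⟩ : ∃ e : ℝ, e = (s - α) / 4 := ⟨_, rfl⟩
  have he0 : 0 < e := by rw [he]; linarith
  obtain ⟨ρ, hρ⟩ : ∃ ρ : ℝ, ρ = (2 : ℝ) ^ (-e) := ⟨_, rfl⟩
  have hρ0 : 0 < ρ := by rw [hρ]; positivity
  have hρ1 : ρ < 1 := by
    rw [hρ]
    exact Real.rpow_lt_one_of_one_lt_of_neg (by norm_num) (by linarith)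
  -- choice of the first scale
  obtain ⟨M, hM⟩ : ∃ M : ℝ, M = (2 : ℝ) ^ (α : ℝ) * (C * 3 ^ s) := ⟨_, rfl⟩
  have hM0 : 0 ≤ M := by rw [hM]; positivity
  have hq : 0 < (c * (1 - ρ) / 2) ^ 2 / (M + 1) := by
    have : 0 < 1 - ρ := by linarith
    positivity
  obtain ⟨k0, hk0⟩ := exists_pow_lt_of_lt_one hq hρ1
  obtain ⟨t, κ, ht1, ht2, ht3, ht4⟩ := cover K α hα1 (k0 + 2)
  obtain ⟨U, hU⟩ : ∃ U : ℕ → Set X, U = fun i => thickening ((1 / 2 : ℝ) ^ κ i) (t i) := ⟨_, rfl⟩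
  have hUo : ∀ i, IsOpen (U i) := fun i => by rw [hU]; exact isOpen_thickening
  have htU : ∀ i, t i ⊆ U i := fun i => by
    rw [hU]
    exact self_subset_thickening (by positivity) _
  have hUd : ∀ i, ∀ x ∈ U i, ∀ y ∈ U i, dist x y ≤ 3 * (1 / 2 : ℝ) ^ κ i := by
    intro i x hx y hy
    rw [hU] at hx hy
    obtain ⟨x', hx', hxx'⟩ := mem_thickening_iff.1 hx
    obtain ⟨y', hy', hyy'⟩ := mem_thickening_iff.1 hy
    have h1 := ht3 i x' hx' y' hy'
    have h2 := dist_triangle4 x x' y' y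
    rw [dist_comm y' y] at h2
    linarith
  obtain ⟨S, hS⟩ := hK.elim_finite_subcover U hUo (ht1.trans (iUnion_mono htU))
  obtain ⟨k1, hk1⟩ : ∃ k1 : ℕ, ∀ i ∈ S, κ i ≤ k1 := by
    refine ⟨S.sup κ, fun i hi => Finset.le_sup hi⟩
  obtain ⟨μ, hμf, hμK, hμE⟩ := h (3 * (1 / 2 : ℝ) ^ k1) (by positivity)
  obtain ⟨F, hF⟩ : ∃ F : ℕ → Finset ℕ, F = fun k => S.filter fun i => κ i = k := ⟨_, rfl⟩
  have hcov : K ⊆ ⋃ k, ⋃ i ∈ F k, U i := by
    intro x hx
    have h1 := hS hx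
    simp only [mem_iUnion, exists_prop] at h1 ⊢
    obtain ⟨i, hi, hxi⟩ := h1
    refine ⟨κ i, i, ?_, hxi⟩
    rw [hF]
    simp [hi]
  obtain ⟨k, hk⟩ := pigeon μ K (fun k => ⋃ i ∈ F k, U i) hcov c ρ hc hρ0 hρ1 hμK
  have hpos : 0 < c * (1 - ρ) / 2 * ρ ^ k := by
    have : 0 < 1 - ρ := by linarith
    positivity
  have hne : (F k).Nonempty := by
    by_contra hcon2
    rw [Finset.not_nonempty_iff_eq_empty] at hcon2
    rw [hcon2] at hk
    simp only [Finset.notMem_empty, iUnion_of_empty, iUnion_empty, measure_empty,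
      nonpos_iff_eq_zero, ENNReal.ofReal_eq_zero] at hk
    linarith
  obtain ⟨i0, hi0⟩ := hne
  have hi0' : i0 ∈ S ∧ κ i0 = k := by
    rw [hF] at hi0
    simpa using hi0
  have hk_lo : k0 + 2 ≤ k := by rw [← hi0'.2]; exact ht2 i0
  have hk_hi : k ≤ k1 := by rw [← hi0'.2]; exact hk1 i0 hi0'.1
  have hr0 : 3 * (1 / 2 : ℝ) ^ k1 ≤ 3 * (1 / 2 : ℝ) ^ k := by
    have : (1 / 2 : ℝ) ^ k1 ≤ (1 / 2 : ℝ) ^ k := pow_le_pow_of_le_one (by norm_num) (by norm_num) hk_hi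
    linarith
  have hr1 : 3 * (1 / 2 : ℝ) ^ k ≤ 1 := by
    have : (1 / 2 : ℝ) ^ k ≤ (1 / 2 : ℝ) ^ 2 :=
      pow_le_pow_of_le_one (by norm_num) (by norm_num) (by omega)
    norm_num at this ⊢
    linarith
  have hEk := hμE _ hr0 hr1
  have hcard : ((F k).card : ℝ) ≤ (2 : ℝ) ^ ((α : ℝ) * (k + 1)) := ht4 k (F k) fun i hi => by
    rw [hF] at hi
    simpa using (Finset.mem_filter.1 hi).2
  have hFU : ∀ i ∈ F k, κ i = k := fun i hi => by
    rw [hF] at hi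
    simpa using (Finset.mem_filter.1 hi).2
  obtain ⟨U2, hU2⟩ : ∃ U2 : ℕ → Set X, U2 = fun i => if κ i = k then U i else ∅ := ⟨_, rfl⟩
  have hUU : (⋃ i ∈ F k, U i) = ⋃ i ∈ F k, U2 i := by
    refine iUnion₂_congr fun i hi => ?_
    rw [hU2]
    simp only [if_pos (hFU i hi)]
  have hce := card_energy μ (F k) U2 (fun i => by
      rw [hU2]
      dsimp only
      split_ifs
      · exact hUo i
      · exact isOpen_empty) (3 * (1 / 2 : ℝ) ^ k) (fun i x hx y hy => by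
      rw [hU2] at hx hy
      dsimp only at hx hy
      split_ifs at hx hy with h1
      · rw [← h1]
        exact hUd i x hx y hy
      · exact absurd hx (notMem_empty _)) _ (by positivity) hEk
  rw [← hUU] at hce
  have h1 : c * (1 - ρ) / 2 * ρ ^ k ≤ (μ (⋃ i ∈ F k, U i)).toReal := by
    have h2 := ENNReal.toReal_mono (measure_ne_top μ _) hk
    rwa [ENNReal.toReal_ofReal hpos.le] at h2
  have h2 : (c * (1 - ρ) / 2 * ρ ^ k) ^ 2 ≤
      (2 : ℝ) ^ ((α : ℝ) * (k + 1)) * (C * (3 * (1 / 2 : ℝ) ^ k) ^ s) := by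
    calc _ ≤ (μ (⋃ i ∈ F k, U i)).toReal ^ 2 := pow_le_pow_left₀ hpos.le h1 2
      _ ≤ _ := hce
      _ ≤ _ := mul_le_mul_of_nonneg_right hcard (by positivity)
  have h3 : (2 : ℝ) ^ ((α : ℝ) * (k + 1)) * (C * (3 * (1 / 2 : ℝ) ^ k) ^ s) = M * ρ ^ (4 * k) := by
    have h4 : (3 * (1 / 2 : ℝ) ^ k) ^ s = 3 ^ s * (2 : ℝ) ^ (-(s * k)) := by
      rw [Real.mul_rpow (by norm_num) (by positivity), one_div, inv_pow, ← Real.rpow_natCast,
        ← Real.rpow_neg (by norm_num), ← Real.rpow_mul (by norm_num)]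
      congr 2
      ring
    have h5 : ρ ^ (4 * k) = (2 : ℝ) ^ (α * k : ℝ) * (2 : ℝ) ^ (-(s * k)) := by
      rw [hρ, ← Real.rpow_natCast, ← Real.rpow_mul (by norm_num), ← Real.rpow_add (by norm_num)]
      congr 1
      rw [he]
      push_cast
      ring
    have h6 : (2 : ℝ) ^ ((α : ℝ) * (k + 1)) = (2 : ℝ) ^ (α * k : ℝ) * (2 : ℝ) ^ (α : ℝ) := by
      rw [← Real.rpow_add (by norm_num)]
      congr 1
      ring
    rw [h4, h5, h6, hM]
    ring
  rw [h3] at h2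
  have h4 : (c * (1 - ρ) / 2) ^ 2 ≤ M * ρ ^ (2 * k) := by
    have h5 : 0 < ρ ^ (2 * k) := by positivity
    have h6 : (c * (1 - ρ) / 2) ^ 2 * ρ ^ (2 * k) ≤ M * ρ ^ (2 * k) * ρ ^ (2 * k) := by
      calc _ = (c * (1 - ρ) / 2 * ρ ^ k) ^ 2 := by rw [mul_pow, ← pow_mul, mul_comm 2 k]
        _ ≤ _ := h2
        _ = _ := by rw [mul_assoc, ← pow_add]; congr 2; ring
    exact le_of_mul_le_mul_right h6 h5
  have h5 : ρ ^ (2 * k) ≤ ρ ^ k0 := pow_le_pow_of_le_one hρ0.le hρ1.le (by omega)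
  have h6 : (M + 1) * ρ ^ k0 < (c * (1 - ρ) / 2) ^ 2 := by
    rw [lt_div_iff₀ (by positivity)] at hk0
    linarith
  have h7 : M * ρ ^ (2 * k) ≤ (M + 1) * ρ ^ k0 := by
    have h8 : (0 : ℝ) < ρ ^ k0 := by positivity
    nlinarith [mul_le_mul_of_nonneg_left h5 hM0]
  linarith

end Pool.Agent.H58.BR
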