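import Pool.Agent.H58.BR.Planar

/-!
# Block-radial Kakeya sets
-/

set_option autoImplicit false

open MeasureTheory Set Metric
open scoped ENNReal NNReal

namespace Pool.Agent.H58.BR

open Cv

/-- Short bad sets avoid a common interval. -/
theorem exists_interval {O : Type*} [Fintype O] (Bad : O → ℝ → Prop) (η : ℝ) (hη : 0 < η)
    (hη1 : (2 * (Fintype.card O : ℝ) + 1) * η ≤ 1)
    (h : ∀ o, ∀ t u : ℝ, 0 ≤ t → t ≤ 1 → 0 ≤ u → u ≤ 1 → Bad o t → Bad o u → |t - u| < η) :
    ∃ s : ℝ, 0 ≤ s ∧ s + η ≤ 1 ∧ ∀ t ∈ Icc s (s + η), ∀ o, ¬ Bad o t := by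
  by_contra hcon
  push Not at hcon
  have h1 : ∀ r : Fin (Fintype.card O + 1), ∃ t ∈ Icc (2 * (r : ℝ) * η) (2 * (r : ℝ) * η + η),
      ∃ o, Bad o t := by
    intro r
    have hr : (r : ℝ) ≤ Fintype.card O := by exact_mod_cast Nat.lt_succ_iff.1 r.2
    refine hcon _ (by positivity) ?_
    nlinarith
  choose t ht o ho using h1
  obtain ⟨r, r', hrr', hoo⟩ := Fintype.exists_ne_map_eq_of_card_lt o (by simp)
  have h01 : ∀ r, 0 ≤ t r ∧ t r ≤ 1 := by
    intro r
    have hr : (r : ℝ) ≤ Fintype.card O := by exact_mod_cast Nat.lt_succ_iff.1 r.2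
    have hr0 : (0 : ℝ) ≤ (r : ℝ) := by positivity
    have := ht r
    rw [mem_Icc] at this
    constructor
    · have : 0 ≤ 2 * (r : ℝ) * η := by positivity
      linarith [(ht r).1]
    · have : (2 * (r : ℝ) + 1) * η ≤ (2 * (Fintype.card O : ℝ) + 1) * η := by gcongr
      linarith [(ht r).2]
  have h2 := h (o r) (t r) (t r') (h01 r).1 (h01 r).2 (h01 r').1 (h01 r').2 (ho r)
    (by rw [hoo]; exact ho r')
  have h3 := ht r
  have h4 := ht r'
  rw [mem_Icc] at h3 h4
  rw [abs_lt] at h2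
  rcases lt_or_gt_of_ne hrr' with h5 | h5
  · have h6 : (r : ℝ) + 1 ≤ r' := by exact_mod_cast h5
    have h7 : ((r : ℝ) + 1) * η ≤ r' * η := by gcongr
    linarith
  · have h6 : (r' : ℝ) + 1 ≤ r := by exact_mod_cast h5
    have h7 : ((r' : ℝ) + 1) * η ≤ r * η := by gcongr
    linarith

variable {ι β : Type*} [Fintype ι] [Fintype β] [DecidableEq β]

/-- the square of the norm of the block `b` of the vector `x` -/
noncomputable def bsq (π : ι → β) (x : EuclideanSpace ℝ ι) (b : β) : ℝ :=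
  ∑ i with π i = b, x i ^ 2

omit [Fintype β] in
theorem sum_section [DecidableEq ι] (π : ι → β) (σ : β → ι) (hσ : ∀ b, π (σ b) = b) (b : β)
    (f : ι → ℝ) : (∑ i with π i = b, if σ (π i) = i then f i else 0) = f (σ b) := by
  rw [Finset.sum_eq_single (σ b)]
  · rw [if_pos (by rw [hσ])]
  · intro i hi hne
    rw [Finset.mem_filter] at hi
    rw [if_neg]
    intro h
    rw [hi.2] at h
    exact hne h.symm
  · intro h
    exact absurd (by simp [hσ]) h

/-- The curves of the squares of the norms of the blocks. -/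
theorem exists_curve [DecidableEq ι] (π : ι → β) (σ : β → ι) (hσ : ∀ b, π (σ b) = b)
    (b1 b2 : β) (hb12 : b1 ≠ b2) (K : Set (EuclideanSpace ℝ ι)) (R0 : ℝ)
    (hKR : ∀ x ∈ K, ‖x‖ ≤ R0)
    (hK : ∀ e : EuclideanSpace ℝ ι, ‖e‖ = 1 → ∃ a : EuclideanSpace ℝ ι,
      ∀ t ∈ Icc (0 : ℝ) 1, a + t • e ∈ K)
    (m : ℝ) (hm : m = Fintype.card β) (η : ℝ) (hη : η = 1 / (2 * m + 3)) (κ : ℝ)
    (hκ1 : 1 / 4 ≤ κ) (hκ2 : κ ≤ 3 / 4) :
    ∃ c : Cv, c.κ = κ ∧ c.Good (m * R0) η η ∧ ∃ x : ℝ → EuclideanSpace ℝ ι,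
      ∀ t ∈ c.J η, x t ∈ K ∧ bsq π (x t) b1 * (m / 2) = c.P t ∧ bsq π (x t) b2 * (m / 2) = c.Q t ∧
        ∀ b, (η / (4 * m)) ^ 2 ≤ bsq π (x t) b := by
  have hcard : 2 ≤ Fintype.card β := by
    have := Finset.card_le_univ ({b1, b2} : Finset β)
    rwa [Finset.card_pair hb12] at this
  have hm2 : 2 ≤ m := by rw [hm]; exact_mod_cast hcard
  have hη0 : 0 < η := by rw [hη]; positivity
  have hη1 : η ≤ 1 := by
    rw [hη, div_le_one (by positivity)]
    linarith
  -- the direction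
  obtain ⟨kap, hkap⟩ : ∃ kap : β → ℝ, kap = fun b => if b = b1 then 2 / m * κ else
    if b = b2 then 2 / m * (1 - κ) else 1 / m := ⟨_, rfl⟩
  have hk1 : kap b1 = 2 / m * κ := by rw [hkap]; simp
  have hk2 : kap b2 = 2 / m * (1 - κ) := by rw [hkap]; simp [hb12.symm]
  have hklow : ∀ b, 1 / (2 * m) ≤ kap b := by
    intro b
    rw [hkap]
    dsimp only
    split_ifs
    · rw [div_mul_eq_mul_div, div_le_div_iff₀ (by positivity) (by positivity)]
      nlinarith
    · rw [div_mul_eq_mul_div, div_le_div_iff₀ (by positivity) (by positivity)]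
      nlinarith
    · rw [div_le_div_iff₀ (by positivity) (by positivity)]
      nlinarith
  have hkhigh : ∀ b, kap b ≤ 1 := by
    intro b
    rw [hkap]
    dsimp only
    split_ifs
    · rw [div_mul_eq_mul_div, div_le_one (by positivity)]
      nlinarith
    · rw [div_mul_eq_mul_div, div_le_one (by positivity)]
      nlinarith
    · rw [div_le_one (by positivity)]
      linarith
  have hkpos : ∀ b, 0 < kap b := fun b => lt_of_lt_of_le (by positivity) (hklow b)
  have hksum : ∑ b, kap b = 1 := by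
    have h1 : ∀ b, kap b = 1 / m + ((if b = b1 then 2 / m * κ - 1 / m else 0) +
        (if b = b2 then 2 / m * (1 - κ) - 1 / m else 0)) := by
      intro b
      rw [hkap]
      dsimp only
      by_cases h1 : b = b1
      · rw [if_pos h1, if_pos h1, if_neg (by rw [h1]; exact hb12)]
        ring
      · by_cases h2 : b = b2
        · rw [if_neg h1, if_pos h2, if_neg h1, if_pos h2]
          ring
        · rw [if_neg h1, if_neg h2, if_neg h1, if_neg h2]
          ring
    simp_rw [h1]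
    rw [Finset.sum_add_distrib, Finset.sum_add_distrib, Finset.sum_ite_eq', Finset.sum_ite_eq',
      Finset.sum_const, Finset.card_univ, nsmul_eq_mul, ← hm]
    simp only [Finset.mem_univ, if_true]
    field_simp
    ring
  obtain ⟨e, he⟩ : ∃ e : EuclideanSpace ℝ ι, e = WithLp.toLp 2 fun i =>
    if σ (π i) = i then √(kap (π i)) else 0 := ⟨_, rfl⟩
  have hei : ∀ i, e i = if σ (π i) = i then √(kap (π i)) else 0 := fun i => by rw [he]
  have hfib : ∀ f : ι → ℝ, ∑ i, f i = ∑ b, ∑ i with π i = b, f i := fun f =>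
    (Finset.sum_fiberwise _ _ _).symm
  have henorm : ‖e‖ = 1 := by
    rw [EuclideanSpace.norm_eq]
    have h1 : ∑ i, ‖e i‖ ^ 2 = 1 := by
      rw [hfib, ← hksum]
      refine Finset.sum_congr rfl fun b _ => ?_
      have h2 : ∀ i, ‖e i‖ ^ 2 = if σ (π i) = i then kap (π i) else 0 := by
        intro i
        rw [hei i]
        split_ifs
        · rw [Real.norm_eq_abs, sq_abs, Real.sq_sqrt (hkpos _).le]
        · simp
      simp_rw [h2]
      rw [sum_section π σ hσ b fun i => kap (π i), hσ]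
    rw [h1, Real.sqrt_one]
  obtain ⟨a, ha⟩ := hK e henorm
  have haR : ∀ i, |a i| ≤ R0 := by
    intro i
    have h1 := ha 0 ⟨le_rfl, zero_le_one⟩
    rw [zero_smul, add_zero] at h1
    have h2 := PiLp.norm_apply_le a i
    rw [Real.norm_eq_abs] at h2
    exact h2.trans (hKR _ h1)
  -- the squares of the norms of the blocks
  obtain ⟨A, hA⟩ : ∃ A : β → ℝ, A = fun b => ∑ i with π i = b, a i ^ 2 := ⟨_, rfl⟩
  have hbsq : ∀ t b, bsq π (a + t • e) b = kap b * t ^ 2 + 2 * √(kap b) * a (σ b) * t + A b := by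
    intro t b
    unfold bsq
    rw [hA]
    have h1 : ∀ i, (a + t • e) i ^ 2 = (if σ (π i) = i then (kap (π i) * t ^ 2 +
        2 * √(kap (π i)) * a i * t) else 0) + a i ^ 2 := by
      intro i
      rw [PiLp.add_apply, PiLp.smul_apply, smul_eq_mul, hei i]
      split_ifs
      · have := Real.sq_sqrt (hkpos (π i)).le
        linear_combination t ^ 2 * this
      · ring
    simp_rw [h1]
    rw [Finset.sum_add_distrib, sum_section π σ hσ b fun i => (kap (π i) * t ^ 2 +
        2 * √(kap (π i)) * a i * t), hσ]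
  have hbsqlow : ∀ t b, (a (σ b) + t * √(kap b)) ^ 2 ≤ bsq π (a + t • e) b := by
    intro t b
    have h1 : (a (σ b) + t * √(kap b)) ^ 2 = (a + t • e) (σ b) ^ 2 := by
      rw [PiLp.add_apply, PiLp.smul_apply, smul_eq_mul, hei, hσ, if_pos rfl]
    rw [h1]
    unfold bsq
    exact Finset.single_le_sum (f := fun i => (a + t • e) i ^ 2) (fun i _ => sq_nonneg _)
      (by simp [hσ])
  -- the curve
  obtain ⟨α, hα⟩ : ∃ α : ℝ, α = 2 * √(kap b1) * a (σ b1) * (m / 2) := ⟨_, rfl⟩
  obtain ⟨β', hβ'⟩ : ∃ β' : ℝ, β' = 2 * √(kap b2) * a (σ b2) * (m / 2) := ⟨_, rfl⟩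
  have hbound : ∀ b, |2 * √(kap b) * a (σ b) * (m / 2)| ≤ m * R0 := by
    intro b
    have h1 : √(kap b) ≤ 1 := Real.sqrt_le_one.2 (hkhigh b)
    have h2 := haR (σ b)
    have h3 : 2 * √(kap b) * a (σ b) * (m / 2) = √(kap b) * a (σ b) * m := by ring
    rw [h3, abs_mul, abs_mul, abs_of_nonneg (Real.sqrt_nonneg _), abs_of_nonneg (by linarith : 0 ≤ m)]
    calc √(kap b) * |a (σ b)| * m ≤ 1 * R0 * m := by gcongr
      _ = _ := by ring
  obtain ⟨Bad, hBad⟩ : ∃ Bad : Option β → ℝ → Prop, Bad = fun o t => match o with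
    | some b => bsq π (a + t • e) b < (η / (4 * m)) ^ 2
    | none => |2 * t + α + β'| < η := ⟨_, rfl⟩
  obtain ⟨s, hs0, hs1, hs⟩ := exists_interval Bad η hη0 (by
      rw [Fintype.card_option]
      push_cast
      rw [← hm, hη, mul_one_div, div_le_one (by positivity)]
      linarith) (by
      intro o t u _ _ _ _ h1 h2
      rw [hBad] at h1 h2
      cases o with
      | none =>
        dsimp only at h1 h2
        rw [abs_lt] at *
        constructor <;> linarith [h1.1, h1.2, h2.1, h2.2]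
      | some b =>
        dsimp only at h1 h2
        have h3 := abs_lt_of_sq_lt_sq ((hbsqlow t b).trans_lt h1) (by positivity)
        have h4 := abs_lt_of_sq_lt_sq ((hbsqlow u b).trans_lt h2) (by positivity)
        have h5 : |(t - u) * √(kap b)| < 2 * (η / (4 * m)) := by
          rw [abs_lt] at *
          constructor <;> linarith [h3.1, h3.2, h4.1, h4.2]
        have h6 : 1 / (2 * m) ≤ √(kap b) := by
          apply Real.le_sqrt_of_sq_le
          refine le_trans ?_ (hklow b)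
          have h7 : 1 / (2 * m) ≤ 1 := by
            rw [div_le_one (by positivity)]
            linarith
          have h8 : 0 ≤ 1 / (2 * m) := by positivity
          nlinarith
        rw [abs_mul, abs_of_nonneg (Real.sqrt_nonneg _)] at h5
        have h7 : |t - u| * (1 / (2 * m)) < 2 * (η / (4 * m)) :=
          (mul_le_mul_of_nonneg_left h6 (abs_nonneg _)).trans_lt h5
        have h8 : 2 * (η / (4 * m)) = η * (1 / (2 * m)) := by
          field_simp
          norm_num
        rw [h8] at h7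
        exact lt_of_mul_lt_mul_right h7 (by positivity))
  refine ⟨⟨κ, α, β', A b1 * (m / 2), A b2 * (m / 2), s⟩, rfl, ⟨by simp only; linarith,
    by simp only; linarith, ?_, ?_, hs0, hs1, ?_⟩, fun t => a + t • e, ?_⟩
  · dsimp only
    rw [hα]
    exact hbound b1
  · dsimp only
    rw [hβ']
    exact hbound b2
  · intro t ht
    have h1 := hs t ht none
    rw [hBad] at h1
    exact not_lt.1 h1
  · intro t ht
    have ht2 : t ∈ Icc s (s + η) := ht
    refine ⟨ha t ⟨hs0.trans ht2.1, ht2.2.trans hs1⟩, ?_, ?_, fun b => ?_⟩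
    · unfold Cv.P
      dsimp only
      rw [hbsq, hk1, hα, hk1]
      have : m ≠ 0 := by positivity
      field_simp
    · unfold Cv.Q
      dsimp only
      rw [hbsq, hk2, hβ', hk2]
      have : m ≠ 0 := by positivity
      field_simp
    · have h1 := hs t ht2 (some b)
      rw [hBad] at h1
      exact not_lt.1 h1

/-- the norm of the block `b` of the vector `x` -/
noncomputable def blockNorm (π : ι → β) (x : EuclideanSpace ℝ ι) (b : β) : ℝ :=
  √(∑ i with π i = b, x i ^ 2)

omit [Fintype β] in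
theorem blockNorm_sq (π : ι → β) (x : EuclideanSpace ℝ ι) (b : β) :
    blockNorm π x b ^ 2 = bsq π x b :=
  Real.sq_sqrt (Finset.sum_nonneg fun _ _ => sq_nonneg _)

omit [Fintype β] in
theorem cont_bsq (π : ι → β) (b : β) : Continuous fun x : EuclideanSpace ℝ ι => bsq π x b := by
  unfold bsq
  fun_prop

omit [Fintype β] in
theorem cont_blockNorm (π : ι → β) (b : β) :
    Continuous fun x : EuclideanSpace ℝ ι => blockNorm π x b :=
  Real.continuous_sqrt.comp (cont_bsq π b)

/-- **Profiles of Kakeya sets.** -/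
theorem profile (π : ι → β) (hπ : Function.Surjective π) (hβ : 2 ≤ Fintype.card β)
    (K : Set (EuclideanSpace ℝ ι)) (hc : IsCompact K)
    (hK : ∀ e : EuclideanSpace ℝ ι, ‖e‖ = 1 → ∃ a : EuclideanSpace ℝ ι,
      ∀ t ∈ Icc (0 : ℝ) 1, a + t • e ∈ K) :
    ENNReal.ofReal (4 / 3) ≤ dimH (blockNorm π '' K) := by
  classical
  obtain ⟨σ, hσ⟩ := hπ.hasRightInverse
  obtain ⟨b1, b2, hb12⟩ : ∃ b1 b2 : β, b1 ≠ b2 := by
    have : Nontrivial β := Fintype.one_lt_card_iff_nontrivial.1 (by omega)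
    exact exists_pair_ne β
  obtain ⟨R0, hR0, hKR⟩ : ∃ R0 : ℝ, 1 ≤ R0 ∧ ∀ x ∈ K, ‖x‖ ≤ R0 := by
    obtain ⟨R, hR⟩ := hc.isBounded.exists_norm_le
    exact ⟨max R 1, le_max_right _ _, fun x hx => (hR x hx).trans (le_max_left _ _)⟩
  obtain ⟨m, hm⟩ : ∃ m : ℝ, m = Fintype.card β := ⟨_, rfl⟩
  have hm2 : 2 ≤ m := by rw [hm]; exact_mod_cast hβ
  obtain ⟨η, hη⟩ : ∃ η : ℝ, η = 1 / (2 * m + 3) := ⟨_, rfl⟩
  have hη0 : 0 < η := by rw [hη]; positivity
  have hη1 : η ≤ 1 := by
    rw [hη, div_le_one (by positivity)]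
    linarith
  obtain ⟨h, hh⟩ : ∃ h : (β → ℝ) → (ℝ × ℝ) × (Fin 0 → ℝ), h = fun v =>
    ((v b1 ^ 2 * (m / 2), v b2 ^ 2 * (m / 2)), fun _ => 0) := ⟨_, rfl⟩
  have hhs : ContDiff ℝ 1 h := by
    rw [hh]
    fun_prop
  have hpc : IsCompact (blockNorm π '' K) :=
    hc.image (continuous_pi fun b => cont_blockNorm π b)
  have hG := hpc.image hhs.continuous
  have h1 : dimH (h '' (blockNorm π '' K)) ≤ dimH (blockNorm π '' K) :=
    hhs.contDiffOn.dimH_image_le convex_univ (subset_univ _)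
  refine le_trans ?_ h1
  have h2 := planar (ι := Fin 0) hG (R := m * R0) (b := η) (l := η) (ε := 1) (by nlinarith) hη0 hη1
    hη0 hη1 one_pos (fun κ hκ1 hκ2 => by
      obtain ⟨c, hcκ, hcg, x, hx⟩ := exists_curve π σ hσ b1 b2 hb12 K R0 hKR hK m hm η hη κ hκ1 hκ2
      refine ⟨c, hcκ, hcg, fun t ht u _ => ?_⟩
      obtain ⟨hx1, hx2, hx3, -⟩ := hx t ht
      refine ⟨blockNorm π (x t), ⟨x t, hx1, rfl⟩, ?_⟩
      rw [hh]
      dsimp only
      rw [blockNorm_sq, blockNorm_sq, hx2, hx3]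
      congr 1
      exact Subsingleton.elim _ _)
  simpa using h2

/-- **Block-radial Kakeya sets.** -/
theorem block_radial (π : ι → β) (hπ : Function.Surjective π) (hβ : 2 ≤ Fintype.card β)
    (K : Set (EuclideanSpace ℝ ι)) (hc : IsCompact K)
    (hK : ∀ e : EuclideanSpace ℝ ι, ‖e‖ = 1 → ∃ a : EuclideanSpace ℝ ι,
      ∀ t ∈ Icc (0 : ℝ) 1, a + t • e ∈ K)
    (hinv : ∀ x ∈ K, ∀ y, blockNorm π y = blockNorm π x → y ∈ K) :
    ENNReal.ofReal ((Fintype.card ι : ℝ) - Fintype.card β + 4 / 3) ≤ dimH K := by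
  classical
  obtain ⟨σ, hσ⟩ := hπ.hasRightInverse
  obtain ⟨b1, b2, hb12⟩ : ∃ b1 b2 : β, b1 ≠ b2 := by
    have : Nontrivial β := Fintype.one_lt_card_iff_nontrivial.1 (by omega)
    exact exists_pair_ne β
  obtain ⟨R0, hR0, hKR⟩ : ∃ R0 : ℝ, 1 ≤ R0 ∧ ∀ x ∈ K, ‖x‖ ≤ R0 := by
    obtain ⟨R, hR⟩ := hc.isBounded.exists_norm_le
    exact ⟨max R 1, le_max_right _ _, fun x hx => (hR x hx).trans (le_max_left _ _)⟩
  obtain ⟨m, hm⟩ : ∃ m : ℝ, m = Fintype.card β := ⟨_, rfl⟩
  have hm2 : 2 ≤ m := by rw [hm]; exact_mod_cast hβ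
  obtain ⟨η, hη⟩ : ∃ η : ℝ, η = 1 / (2 * m + 3) := ⟨_, rfl⟩
  have hη0 : 0 < η := by rw [hη]; positivity
  have hη1 : η ≤ 1 := by
    rw [hη, div_le_one (by positivity)]
    linarith
  obtain ⟨n, hn⟩ : ∃ n : ℝ, n = Fintype.card ι := ⟨_, rfl⟩
  have hn0 : 0 ≤ n := by rw [hn]; positivity
  obtain ⟨ε, hε⟩ : ∃ ε : ℝ, ε = η / (4 * m) / (n + 1) := ⟨_, rfl⟩
  have hε0 : 0 < ε := by rw [hε]; positivity
  have hεn : n * ε ^ 2 ≤ (η / (4 * m)) ^ 2 := by
    rw [hε, div_pow, mul_div_assoc', div_le_iff₀ (by positivity)]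
    have : 0 < (η / (4 * m)) ^ 2 := by positivity
    nlinarith [mul_nonneg this.le hn0, mul_nonneg this.le (mul_nonneg hn0 hn0)]
  obtain ⟨h, hh⟩ : ∃ h : EuclideanSpace ℝ ι → (ℝ × ℝ) × ({i // ¬ σ (π i) = i} → ℝ), h = fun x =>
    ((bsq π x b1 * (m / 2), bsq π x b2 * (m / 2)), fun i => x i.1) := ⟨_, rfl⟩
  have hhs : ContDiff ℝ 1 h := by
    rw [hh]
    unfold bsq
    fun_prop
  have hG := hc.image hhs.continuous
  have h1 : dimH (h '' K) ≤ dimH K := hhs.contDiffOn.dimH_image_le convex_univ (subset_univ _)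
  refine le_trans ?_ h1
  have hcard : (Fintype.card {i // ¬ σ (π i) = i} : ℝ) = Fintype.card ι - Fintype.card β := by
    have h2 : Fintype.card {i // σ (π i) = i} = Fintype.card β := by
      refine Fintype.card_congr ⟨fun i => π i.1, fun b => ⟨σ b, by rw [hσ]⟩, fun i => ?_, fun b => ?_⟩
      · exact Subtype.ext i.2
      · exact hσ b
    have h3 := Fintype.card_subtype_compl fun i => σ (π i) = i
    have h4 : Fintype.card {i // σ (π i) = i} ≤ Fintype.card ι := Fintype.card_subtype_le _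
    rw [h3, Nat.cast_sub h4, h2]
  have h2 := planar (ι := {i // ¬ σ (π i) = i}) hG (R := m * R0) (b := η) (l := η) (ε := ε)
    (by nlinarith) hη0 hη1 hη0 hη1 hε0 (fun κ hκ1 hκ2 => by
      obtain ⟨c, hcκ, hcg, x, hx⟩ := exists_curve π σ hσ b1 b2 hb12 K R0 hKR hK m hm η hη κ hκ1 hκ2
      refine ⟨c, hcκ, hcg, fun t ht u hu => ?_⟩
      obtain ⟨hx1, hx2, hx3, hx4⟩ := hx t ht
      obtain ⟨u', hu'⟩ : ∃ u' : ι → ℝ, u' = fun i => if h : ¬ σ (π i) = i then u ⟨i, h⟩ else 0 :=
        ⟨_, rfl⟩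
      have hu'0 : ∀ i, σ (π i) = i → u' i = 0 := fun i hi => by
        rw [hu']
        dsimp only
        rw [dif_neg (not_not.2 hi)]
      have hu'1 : ∀ i, u' i ^ 2 ≤ ε ^ 2 := by
        intro i
        rw [hu']
        dsimp only
        split_ifs with h3
        · rw [zero_pow two_ne_zero]
          positivity
        · exact pow_le_pow_left₀ (hu _).1 (hu _).2 2
      obtain ⟨U, hU⟩ : ∃ U : β → ℝ, U = fun b => ∑ i with π i = b, u' i ^ 2 := ⟨_, rfl⟩
      have hUle : ∀ b, U b ≤ bsq π (x t) b := by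
        intro b
        refine le_trans ?_ (hx4 b)
        refine le_trans ?_ hεn
        rw [hU]
        dsimp only
        calc ∑ i with π i = b, u' i ^ 2 ≤ ∑ _i with π _i = b, ε ^ 2 :=
              Finset.sum_le_sum fun i _ => hu'1 i
          _ ≤ ∑ _i : ι, ε ^ 2 :=
              Finset.sum_le_sum_of_subset_of_nonneg (Finset.filter_subset _ _)
                fun _ _ _ => by positivity
          _ = n * ε ^ 2 := by rw [Finset.sum_const, Finset.card_univ, nsmul_eq_mul, ← hn]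
      obtain ⟨y, hy⟩ : ∃ y : EuclideanSpace ℝ ι, y = WithLp.toLp 2 fun i =>
        if σ (π i) = i then √(bsq π (x t) (π i) - U (π i)) else u' i := ⟨_, rfl⟩
      have hyi : ∀ i, y i = if σ (π i) = i then √(bsq π (x t) (π i) - U (π i)) else u' i :=
        fun i => by rw [hy]
      have hysq : ∀ b, bsq π y b = bsq π (x t) b := by
        intro b
        have h3 : ∀ i, y i ^ 2 = (if σ (π i) = i then (bsq π (x t) (π i) - U (π i)) else 0) +
            u' i ^ 2 := by
          intro i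
          rw [hyi i]
          split_ifs with h4
          · rw [Real.sq_sqrt (sub_nonneg.2 (hUle _)), hu'0 i h4]
            ring
          · ring
        calc bsq π y b = ∑ i with π i = b, ((if σ (π i) = i then (bsq π (x t) (π i) - U (π i))
              else 0) + u' i ^ 2) := by
              unfold bsq
              exact Finset.sum_congr rfl fun i _ => h3 i
          _ = (bsq π (x t) (π (σ b)) - U (π (σ b))) + U b := by
              rw [Finset.sum_add_distrib, sum_section π σ hσ b fun i => bsq π (x t) (π i) - U (π i),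
                hU]
          _ = _ := by rw [hσ]; ring
      have hyK : y ∈ K := by
        refine hinv (x t) hx1 y ?_
        funext b
        have h3 := hysq b
        unfold bsq at h3
        unfold blockNorm
        rw [h3]
      refine ⟨y, hyK, ?_⟩
      rw [hh]
      dsimp only
      rw [hysq, hysq, hx2, hx3]
      congr 1
      funext i
      rw [hyi, if_neg i.2, hu']
      dsimp only
      rw [dif_pos i.2])
  rw [hcard] at h2
  convert! h2 using 2
  ring

end Pool.Agent.H58.BR
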