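import Pool.Agent.H58.BR.Sep

/-!
# Two parabola-like curves: the pairs of times at which they are close
-/

set_option autoImplicit false

open MeasureTheory Set Metric
open scoped ENNReal NNReal

namespace Pool.Agent.H58.BR

/-- The data of a plane curve `t ↦ (κ t² + α t + A, (1 - κ) t² + β t + B)` on an interval of times
with the initial point `s`. -/
structure Cv where
  κ : ℝ
  α : ℝ
  β : ℝ
  A : ℝ
  B : ℝ
  s : ℝ

namespace Cv

/-- the first coordinate -/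
def P (c : Cv) (t : ℝ) : ℝ := c.κ * t ^ 2 + c.α * t + c.A

/-- the second coordinate -/
def Q (c : Cv) (t : ℝ) : ℝ := (1 - c.κ) * t ^ 2 + c.β * t + c.B

/-- the interval of times -/
def J (c : Cv) (l : ℝ) : Set ℝ := Icc c.s (c.s + l)

/-- the bounds which are used -/
structure Good (R b l : ℝ) (c : Cv) : Prop where
  κ0 : 0 ≤ c.κ
  κ1 : c.κ ≤ 1
  α1 : |c.α| ≤ R
  β1 : |c.β| ≤ R
  s0 : 0 ≤ c.s
  s1 : c.s + l ≤ 1
  g : ∀ t ∈ c.J l, b ≤ |2 * t + c.α + c.β|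

/-- the pairs of times at which two curves are close -/
def Z (c c' : Cv) (l r : ℝ) : Set (ℝ × ℝ) :=
  {z | z.1 ∈ c.J l ∧ z.2 ∈ c'.J l ∧ |c.P z.1 - c'.P z.2| ≤ r ∧ |c.Q z.1 - c'.Q z.2| ≤ r}

end Cv

open Cv

theorem cont_P (c : Cv) : Continuous c.P := by unfold Cv.P; fun_prop

theorem cont_Q (c : Cv) : Continuous c.Q := by unfold Cv.Q; fun_prop

theorem isClosed_Z (c c' : Cv) (l r : ℝ) : IsClosed (Z c c' l r) := by
  have h1 := cont_P c
  have h2 := cont_P c'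
  have h3 := cont_Q c
  have h4 := cont_Q c'
  refine IsClosed.inter (isClosed_Icc.preimage continuous_fst) (IsClosed.inter
    (isClosed_Icc.preimage continuous_snd) (IsClosed.inter ?_ ?_))
  · exact isClosed_le ((h1.comp continuous_fst).sub (h2.comp continuous_snd)).abs continuous_const
  · exact isClosed_le ((h3.comp continuous_fst).sub (h4.comp continuous_snd)).abs continuous_const

theorem vol_le_of_close (S : Set ℝ) (δ : ℝ) (h : ∀ x ∈ S, ∀ y ∈ S, |x - y| ≤ δ) :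
    volume S ≤ ENNReal.ofReal δ := by
  refine (Real.volume_le_diam S).trans (Metric.ediam_le fun x hx y hy => ?_)
  rw [edist_dist]
  exact ENNReal.ofReal_le_ofReal (h x hx y hy)

theorem prod_le (Z : Set (ℝ × ℝ)) (hZ : MeasurableSet Z) (T : Set ℝ) (a c : ℝ≥0∞)
    (hT : ∀ z ∈ Z, z.1 ∈ T) (hTa : volume T ≤ a)
    (hc : ∀ t, volume {x | (t, x) ∈ Z} ≤ c) : (volume.prod volume : Measure (ℝ × ℝ)) Z ≤ c * a := by
  rw [Measure.prod_apply hZ]
  calc ∫⁻ t, volume (Prod.mk t ⁻¹' Z) ≤ ∫⁻ t, (toMeasurable volume T).indicator (fun _ => c) t := by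
        refine lintegral_mono fun t => ?_
        by_cases ht : t ∈ toMeasurable volume T
        · rw [indicator_of_mem ht]
          exact hc t
        · have h1 : Prod.mk t ⁻¹' Z = ∅ := by
            rw [eq_empty_iff_forall_notMem]
            intro x hx
            exact ht (subset_toMeasurable volume T (hT _ hx))
          rw [h1, measure_empty]
          exact bot_le
    _ = c * volume T := by
        rw [lintegral_indicator_const (measurableSet_toMeasurable _ _), measure_toMeasurable]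
    _ ≤ c * a := by gcongr

theorem prod_le_symm (Z : Set (ℝ × ℝ)) (hZ : MeasurableSet Z) (T : Set ℝ) (a c : ℝ≥0∞)
    (hT : ∀ z ∈ Z, z.2 ∈ T) (hTa : volume T ≤ a)
    (hc : ∀ x, volume {t | (t, x) ∈ Z} ≤ c) : (volume.prod volume : Measure (ℝ × ℝ)) Z ≤ c * a := by
  rw [Measure.prod_apply_symm hZ]
  calc ∫⁻ x, volume ((fun t => (t, x)) ⁻¹' Z) ≤
        ∫⁻ x, (toMeasurable volume T).indicator (fun _ => c) x := by
        refine lintegral_mono fun x => ?_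
        by_cases ht : x ∈ toMeasurable volume T
        · rw [indicator_of_mem ht]
          exact hc x
        · have h1 : (fun t => (t, x)) ⁻¹' Z = ∅ := by
            rw [eq_empty_iff_forall_notMem]
            intro t hx
            exact ht (subset_toMeasurable volume T (hT _ hx))
          rw [h1, measure_empty]
          exact bot_le
    _ = c * volume T := by
        rw [lintegral_indicator_const (measurableSet_toMeasurable _ _), measure_toMeasurable]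
    _ ≤ c * a := by gcongr

/-- Two times at which a good curve is close to a point are close. -/
theorem close_times {R b l : ℝ} (hb : 0 < b) {c : Cv} (hc : c.Good R b l) {r p q x y : ℝ}
    (hx : x ∈ c.J l) (hy : y ∈ c.J l) (h1 : |p - c.P x| ≤ r) (h2 : |q - c.Q x| ≤ r)
    (h3 : |p - c.P y| ≤ r) (h4 : |q - c.Q y| ≤ r) : |x - y| ≤ 4 * r / b := by
  have hm : (x + y) / 2 ∈ c.J l := by
    unfold Cv.J at *
    rw [mem_Icc] at *
    constructor <;> linarith [hx.1, hx.2, hy.1, hy.2]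
  have h5 := hc.g _ hm
  have h6 : (x - y) * (2 * ((x + y) / 2) + c.α + c.β) =
      (c.P x + c.Q x) - (c.P y + c.Q y) := by
    unfold Cv.P Cv.Q
    ring
  have h7 : |(c.P x + c.Q x) - (c.P y + c.Q y)| ≤ 4 * r := by
    rw [abs_le] at *
    constructor <;> linarith [h1.1, h1.2, h2.1, h2.2, h3.1, h3.2, h4.1, h4.2]
  rw [← h6, abs_mul] at h7
  rw [le_div_iff₀ hb]
  exact (mul_le_mul_of_nonneg_left h5 (abs_nonneg _)).trans h7

theorem section1 {R b l : ℝ} (hb : 0 < b) {c c' : Cv} (hc' : c'.Good R b l) {r : ℝ} (t : ℝ)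
    (Y : Set (ℝ × ℝ)) (hY : Y ⊆ Z c c' l r) :
    volume {x | (t, x) ∈ Y} ≤ ENNReal.ofReal (4 * r / b) := by
  refine vol_le_of_close _ _ fun x hx y hy => ?_
  obtain ⟨-, hx1, hx2, hx3⟩ := hY hx
  obtain ⟨-, hy1, hy2, hy3⟩ := hY hy
  exact close_times hb hc' hx1 hy1 hx2 hx3 hy2 hy3

theorem section2 {R b l : ℝ} (hb : 0 < b) {c c' : Cv} (hc : c.Good R b l) {r : ℝ} (x : ℝ)
    (Y : Set (ℝ × ℝ)) (hY : Y ⊆ Z c c' l r) :
    volume {t | (t, x) ∈ Y} ≤ ENNReal.ofReal (4 * r / b) := by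
  refine vol_le_of_close _ _ fun t ht u hu => ?_
  obtain ⟨hx1, -, hx2, hx3⟩ := hY ht
  obtain ⟨hy1, -, hy2, hy3⟩ := hY hu
  dsimp only at *
  refine close_times hb hc hx1 hy1 ?_ ?_ ?_ ?_ (p := c'.P x) (q := c'.Q x)
  · rwa [abs_sub_comm]
  · rwa [abs_sub_comm]
  · rwa [abs_sub_comm]
  · rwa [abs_sub_comm]

/-- The resultant of two good curves is small where they are close. -/
theorem resultant_small {R b l : ℝ} (hR : 1 ≤ R) {c c' : Cv}
    (hc' : c'.Good R b l) {r t x : ℝ} (hr0 : 0 ≤ r) (hr : r ≤ 1) (hx : x ∈ c'.J l)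
    (h1 : |c.P t - c'.P x| ≤ r) (h2 : |c.Q t - c'.Q x| ≤ r) :
    |(c.κ - c'.κ) ^ 2 * t ^ 4 + 2 * (c.κ - c'.κ) * ((1 - c'.κ) * c.α - c'.κ * c.β) * t ^ 3 +
      (((1 - c'.κ) * c.α - c'.κ * c.β) ^ 2 +
        2 * (c.κ - c'.κ) * (c'.κ * (c'.B - c.B) - (1 - c'.κ) * (c'.A - c.A)) -
        (c'.κ * c'.β - (1 - c'.κ) * c'.α) * (-c'.α * (1 - c.κ) + c'.β * c.κ)) * t ^ 2 +
      (2 * ((1 - c'.κ) * c.α - c'.κ * c.β) * (c'.κ * (c'.B - c.B) - (1 - c'.κ) * (c'.A - c.A)) -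
        (c'.κ * c'.β - (1 - c'.κ) * c'.α) * (-c'.α * c.β + c'.β * c.α)) * t +
      ((c'.κ * (c'.B - c.B) - (1 - c'.κ) * (c'.A - c.A)) ^ 2 -
        (c'.κ * c'.β - (1 - c'.κ) * c'.α) * (c'.α * (c'.B - c.B) - c'.β * (c'.A - c.A)))| ≤
      7 * R ^ 2 * r := by
  obtain ⟨f, hf⟩ : ∃ f : ℝ, f = c'.P x - c.P t := ⟨_, rfl⟩
  obtain ⟨g, hg⟩ : ∃ g : ℝ, g = c'.Q x - c.Q t := ⟨_, rfl⟩
  obtain ⟨e1, he1⟩ : ∃ e1 : ℝ, e1 = c'.κ * g - (1 - c'.κ) * f := ⟨_, rfl⟩
  obtain ⟨e2, he2⟩ : ∃ e2 : ℝ, e2 = c'.α * g - c'.β * f := ⟨_, rfl⟩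
  obtain ⟨M, hM⟩ : ∃ M : ℝ, M = c'.κ * c'.β - (1 - c'.κ) * c'.α := ⟨_, rfl⟩
  have key : (c.κ - c'.κ) ^ 2 * t ^ 4 + 2 * (c.κ - c'.κ) * ((1 - c'.κ) * c.α - c'.κ * c.β) * t ^ 3 +
      (((1 - c'.κ) * c.α - c'.κ * c.β) ^ 2 +
        2 * (c.κ - c'.κ) * (c'.κ * (c'.B - c.B) - (1 - c'.κ) * (c'.A - c.A)) -
        (c'.κ * c'.β - (1 - c'.κ) * c'.α) * (-c'.α * (1 - c.κ) + c'.β * c.κ)) * t ^ 2 +
      (2 * ((1 - c'.κ) * c.α - c'.κ * c.β) * (c'.κ * (c'.B - c.B) - (1 - c'.κ) * (c'.A - c.A)) -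
        (c'.κ * c'.β - (1 - c'.κ) * c'.α) * (-c'.α * c.β + c'.β * c.α)) * t +
      ((c'.κ * (c'.B - c.B) - (1 - c'.κ) * (c'.A - c.A)) ^ 2 -
        (c'.κ * c'.β - (1 - c'.κ) * c'.α) * (c'.α * (c'.B - c.B) - c'.β * (c'.A - c.A))) =
      e1 ^ 2 - 2 * e1 * M * x - M * e2 := by
    rw [he1, he2, hM, hf, hg]
    unfold Cv.P Cv.Q
    ring
  rw [key]
  have hf1 : |f| ≤ r := by rw [hf, abs_sub_comm]; exact h1
  have hg1 : |g| ≤ r := by rw [hg, abs_sub_comm]; exact h2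
  have hκ0 := hc'.κ0
  have hκ1 : 0 ≤ 1 - c'.κ := by linarith [hc'.κ1]
  have hα := hc'.α1
  have hβ := hc'.β1
  have h3 : |e1| ≤ r := by
    rw [he1]
    calc |c'.κ * g - (1 - c'.κ) * f| ≤ |c'.κ * g| + |(1 - c'.κ) * f| := abs_sub _ _
      _ = c'.κ * |g| + (1 - c'.κ) * |f| := by
          rw [abs_mul, abs_mul, abs_of_nonneg hκ0, abs_of_nonneg hκ1]
      _ ≤ c'.κ * r + (1 - c'.κ) * r := by gcongr
      _ = r := by ring
  have h4 : |M| ≤ R := by
    rw [hM]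
    calc |c'.κ * c'.β - (1 - c'.κ) * c'.α| ≤ |c'.κ * c'.β| + |(1 - c'.κ) * c'.α| := abs_sub _ _
      _ = c'.κ * |c'.β| + (1 - c'.κ) * |c'.α| := by
          rw [abs_mul, abs_mul, abs_of_nonneg hκ0, abs_of_nonneg hκ1]
      _ ≤ c'.κ * R + (1 - c'.κ) * R := by gcongr
      _ = R := by ring
  have h5 : |e2| ≤ 2 * R * r := by
    rw [he2]
    calc |c'.α * g - c'.β * f| ≤ |c'.α * g| + |c'.β * f| := abs_sub _ _
      _ = |c'.α| * |g| + |c'.β| * |f| := by rw [abs_mul, abs_mul]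
      _ ≤ R * r + R * r := by gcongr
      _ = 2 * R * r := by ring
  have hx1 : |x| ≤ 1 := by
    unfold Cv.J at hx
    rw [mem_Icc] at hx
    rw [abs_le]
    constructor <;> linarith [hc'.s0, hc'.s1, hx.1, hx.2]
  have hR0 : 0 ≤ R := by linarith
  calc |e1 ^ 2 - 2 * e1 * M * x - M * e2| ≤ |e1 ^ 2 - 2 * e1 * M * x| + |M * e2| := abs_sub _ _
    _ ≤ |e1 ^ 2| + |2 * e1 * M * x| + |M * e2| := by gcongr; exact abs_sub _ _
    _ = |e1| ^ 2 + 2 * |e1| * |M| * |x| + |M| * |e2| := by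
        rw [abs_pow, abs_mul, abs_mul, abs_mul, abs_mul, abs_two]
    _ ≤ r ^ 2 + 2 * r * R * 1 + R * (2 * R * r) := by gcongr
    _ ≤ 7 * R ^ 2 * r := by
        have g1 : r ^ 2 ≤ r * R ^ 2 := by
          have : 1 ≤ R ^ 2 := one_le_pow₀ hR
          nlinarith
        have g2 : r * R ≤ r * R ^ 2 := by
          have : R ≤ R ^ 2 := by nlinarith
          exact mul_le_mul_of_nonneg_left this hr0
        have g3 : 0 ≤ r * R ^ 2 := by positivity
        linarith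

theorem resultant_small' {R b l : ℝ} (hR : 1 ≤ R) (c : Cv) {c' : Cv} (hc' : c'.Good R b l) :
    ∃ c2 c1 c0 : ℝ, ∀ r t x : ℝ, 0 ≤ r → r ≤ 1 → x ∈ c'.J l → |c.P t - c'.P x| ≤ r →
      |c.Q t - c'.Q x| ≤ r →
      |(c.κ - c'.κ) ^ 2 * t ^ 4 + 2 * (c.κ - c'.κ) * ((1 - c'.κ) * c.α - c'.κ * c.β) * t ^ 3 +
        c2 * t ^ 2 + c1 * t + c0| ≤ 7 * R ^ 2 * r :=
  ⟨_, _, _, fun _ _ _ h1 h2 h3 h4 h5 => resultant_small hR hc' h1 h2 h3 h4 h5⟩

/-- the times at which the quartic is small and the linear form is not -/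
theorem quartic_small (D W0 c2 c1 c0 w ε d : ℝ) (hd : 0 < d) (h : 2 * ε < |D| * w * d ^ 3) :
    volume {t : ℝ | |D ^ 2 * t ^ 4 + 2 * D * W0 * t ^ 3 + c2 * t ^ 2 + c1 * t + c0| ≤ ε ∧
      w ≤ 2 * D * t + W0} ≤ ENNReal.ofReal (6 * d) := by
  refine volume_le_of_no_four _ d fun a ha b hb c hc e he hab hac hae hbc hbe hce => ?_
  have := four_points D W0 c2 c1 c0 w ε d hd a b c e hab hac hae hbc hbe hce ha.1 hb.1 hc.1 he.1
    ha.2 hb.2 hc.2 he.2
  linarith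

theorem quartic_small' (D W0 c2 c1 c0 w ε d : ℝ) (hd : 0 < d) (h : 2 * ε < |D| * w * d ^ 3) :
    volume {t : ℝ | |D ^ 2 * t ^ 4 + 2 * D * W0 * t ^ 3 + c2 * t ^ 2 + c1 * t + c0| ≤ ε ∧
      w ≤ |2 * D * t + W0|} ≤ ENNReal.ofReal (12 * d) := by
  have h1 := quartic_small D W0 c2 c1 c0 w ε d hd h
  have h2 := quartic_small (-D) (-W0) c2 c1 c0 w ε d hd (by rwa [abs_neg])
  have h3 : {t : ℝ | |D ^ 2 * t ^ 4 + 2 * D * W0 * t ^ 3 + c2 * t ^ 2 + c1 * t + c0| ≤ ε ∧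
      w ≤ |2 * D * t + W0|} ⊆
      {t : ℝ | |D ^ 2 * t ^ 4 + 2 * D * W0 * t ^ 3 + c2 * t ^ 2 + c1 * t + c0| ≤ ε ∧
      w ≤ 2 * D * t + W0} ∪
      {t : ℝ | |(-D) ^ 2 * t ^ 4 + 2 * (-D) * (-W0) * t ^ 3 + c2 * t ^ 2 + c1 * t + c0| ≤ ε ∧
      w ≤ 2 * (-D) * t + (-W0)} := by
    intro t ht
    obtain ⟨ht1, ht2⟩ := ht
    rcases le_abs.1 ht2 with h4 | h4
    · exact Or.inl ⟨ht1, h4⟩
    · right
      refine ⟨?_, by linarith⟩
      have h5 : (-D) ^ 2 * t ^ 4 + 2 * (-D) * (-W0) * t ^ 3 + c2 * t ^ 2 + c1 * t + c0 =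
        D ^ 2 * t ^ 4 + 2 * D * W0 * t ^ 3 + c2 * t ^ 2 + c1 * t + c0 := by ring
      rw [h5]
      exact ht1
  refine (measure_mono h3).trans ((measure_union_le _ _).trans ?_)
  refine (add_le_add h1 h2).trans ?_
  rw [← ENNReal.ofReal_add (by positivity) (by positivity)]
  refine ENNReal.ofReal_le_ofReal ?_
  linarith

/-- the transversal part -/
theorem transversal {R b l : ℝ} (hR : 1 ≤ R) (hb : 0 < b) {c c' : Cv} (hc : c.Good R b l)
    (hc' : c'.Good R b l) {r t x u y w τ : ℝ} (hr0 : 0 ≤ r) (hτ : τ = |c.κ - c'.κ|) (hτ0 : 0 < τ)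
    (hw : w = b ^ 2 * τ / (16 * R))
    (h1 : (t, x) ∈ Z c c' l r) (h2 : (u, y) ∈ Z c c' l r)
    (hW1 : |2 * (c.κ - c'.κ) * t + ((1 - c'.κ) * c.α - c'.κ * c.β)| ≤ w)
    (hW2 : |2 * (c.κ - c'.κ) * u + ((1 - c'.κ) * c.α - c'.κ * c.β)| ≤ w)
    (hV1 : |2 * (c'.κ - c.κ) * x + ((1 - c.κ) * c'.α - c.κ * c'.β)| ≤ w)
    (hV2 : |2 * (c'.κ - c.κ) * y + ((1 - c.κ) * c'.α - c.κ * c'.β)| ≤ w) :
    |t - u| ≤ 24 * R * r / (τ * b ^ 2) := by
  obtain ⟨ht, hx, h3, h4⟩ := h1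
  obtain ⟨hu, hy, h5, h6⟩ := h2
  dsimp only at ht hx h3 h4 hu hy h5 h6
  have hm : (t + u) / 2 ∈ c.J l := by
    unfold Cv.J at *
    rw [mem_Icc] at *
    constructor <;> linarith [ht.1, ht.2, hu.1, hu.2]
  have hn : (x + y) / 2 ∈ c'.J l := by
    unfold Cv.J at *
    rw [mem_Icc] at *
    constructor <;> linarith [hx.1, hx.2, hy.1, hy.2]
  have hG := hc.g _ hm
  have hG' := hc'.g _ hn
  have hm1 : 0 ≤ (t + u) / 2 ∧ (t + u) / 2 ≤ 1 := by
    unfold Cv.J at hm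
    rw [mem_Icc] at hm
    constructor <;> linarith [hc.s0, hc.s1, hm.1, hm.2]
  have hn1 : 0 ≤ (x + y) / 2 ∧ (x + y) / 2 ≤ 1 := by
    unfold Cv.J at hn
    rw [mem_Icc] at hn
    constructor <;> linarith [hc'.s0, hc'.s1, hn.1, hn.2]
  obtain ⟨m, hm'⟩ : ∃ m : ℝ, m = (t + u) / 2 := ⟨_, rfl⟩
  obtain ⟨n, hn'⟩ : ∃ n : ℝ, n = (x + y) / 2 := ⟨_, rfl⟩
  rw [← hm'] at hG hm1
  rw [← hn'] at hG' hn1
  -- derivatives at the midpoints
  obtain ⟨p', hp'⟩ : ∃ p' : ℝ, p' = 2 * c.κ * m + c.α := ⟨_, rfl⟩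
  obtain ⟨q', hq'⟩ : ∃ q' : ℝ, q' = 2 * (1 - c.κ) * m + c.β := ⟨_, rfl⟩
  obtain ⟨f', hf'⟩ : ∃ f' : ℝ, f' = 2 * c'.κ * n + c'.α := ⟨_, rfl⟩
  obtain ⟨g', hg'⟩ : ∃ g' : ℝ, g' = 2 * (1 - c'.κ) * n + c'.β := ⟨_, rfl⟩
  obtain ⟨G, hGd⟩ : ∃ G : ℝ, G = 2 * m + c.α + c.β := ⟨_, rfl⟩
  obtain ⟨G', hGd'⟩ : ∃ G' : ℝ, G' = 2 * n + c'.α + c'.β := ⟨_, rfl⟩
  rw [← hGd] at hG
  rw [← hGd'] at hG'
  obtain ⟨W, hWd⟩ : ∃ W : ℝ, W = 2 * (c.κ - c'.κ) * m + ((1 - c'.κ) * c.α - c'.κ * c.β) := ⟨_, rfl⟩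
  obtain ⟨V, hVd⟩ : ∃ V : ℝ, V = 2 * (c'.κ - c.κ) * n + ((1 - c.κ) * c'.α - c.κ * c'.β) := ⟨_, rfl⟩
  have hW : |W| ≤ w := by
    have : W = ((2 * (c.κ - c'.κ) * t + ((1 - c'.κ) * c.α - c'.κ * c.β)) +
      (2 * (c.κ - c'.κ) * u + ((1 - c'.κ) * c.α - c'.κ * c.β))) / 2 := by
      rw [hWd, hm']; ring
    rw [this]
    rw [abs_le] at *
    constructor <;> linarith [hW1.1, hW1.2, hW2.1, hW2.2]
  have hV : |V| ≤ w := by
    have : V = ((2 * (c'.κ - c.κ) * x + ((1 - c.κ) * c'.α - c.κ * c'.β)) +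
      (2 * (c'.κ - c.κ) * y + ((1 - c.κ) * c'.α - c.κ * c'.β))) / 2 := by
      rw [hVd, hn']; ring
    rw [this]
    rw [abs_le] at *
    constructor <;> linarith [hV1.1, hV1.2, hV2.1, hV2.2]
  -- the wedge of the two tangents
  have hwedge : p' * g' - q' * f' = W * G' - V * G - (c.κ - c'.κ) * G * G' := by
    rw [hp', hq', hf', hg', hWd, hVd, hGd, hGd']
    ring
  have hR0 : 0 < R := by linarith
  have hGle : |G| ≤ 4 * R := by
    rw [hGd]
    have h7 := abs_le.1 hc.α1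
    have h8 := abs_le.1 hc.β1
    rw [abs_le]
    constructor <;> linarith [hm1.1, hm1.2, h7.1, h7.2, h8.1, h8.2]
  have hGle' : |G'| ≤ 4 * R := by
    rw [hGd']
    have h7 := abs_le.1 hc'.α1
    have h8 := abs_le.1 hc'.β1
    rw [abs_le]
    constructor <;> linarith [hn1.1, hn1.2, h7.1, h7.2, h8.1, h8.2]
  have hw0 : 0 ≤ w := by rw [hw]; positivity
  have hlow : τ * b ^ 2 / 2 ≤ |p' * g' - q' * f'| := by
    rw [hwedge]
    have h7 : |(c.κ - c'.κ) * G * G'| ≤ |W * G' - V * G - (c.κ - c'.κ) * G * G'| + |W * G' - V * G| := by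
      have : (c.κ - c'.κ) * G * G' = (W * G' - V * G) - (W * G' - V * G - (c.κ - c'.κ) * G * G') := by
        ring
      calc |(c.κ - c'.κ) * G * G'| = |(W * G' - V * G) - (W * G' - V * G - (c.κ - c'.κ) * G * G')| := by
            rw [← this]
        _ ≤ |W * G' - V * G| + |W * G' - V * G - (c.κ - c'.κ) * G * G'| := abs_sub _ _
        _ = _ := add_comm _ _
    have h8 : |W * G' - V * G| ≤ w * (4 * R) + w * (4 * R) := by
      calc |W * G' - V * G| ≤ |W * G'| + |V * G| := abs_sub _ _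
        _ = |W| * |G'| + |V| * |G| := by rw [abs_mul, abs_mul]
        _ ≤ _ := by gcongr
    have h9 : τ * b * b ≤ |(c.κ - c'.κ) * G * G'| := by
      rw [abs_mul, abs_mul, ← hτ]
      gcongr
    have h10 : w * (4 * R) + w * (4 * R) = b ^ 2 * τ / 2 := by
      rw [hw]
      field_simp
      norm_num
    nlinarith
  -- the difference
  have hd1 : |(t - u) * p' - (x - y) * f'| ≤ 2 * r := by
    have h7 : (t - u) * p' - (x - y) * f' = (c.P t - c'.P x) - (c.P u - c'.P y) := by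
      rw [hp', hf', hm', hn']
      unfold Cv.P
      ring
    rw [h7]
    calc _ ≤ |c.P t - c'.P x| + |c.P u - c'.P y| := abs_sub _ _
      _ ≤ r + r := add_le_add h3 h5
      _ = 2 * r := by ring
  have hd2 : |(t - u) * q' - (x - y) * g'| ≤ 2 * r := by
    have h7 : (t - u) * q' - (x - y) * g' = (c.Q t - c'.Q x) - (c.Q u - c'.Q y) := by
      rw [hq', hg', hm', hn']
      unfold Cv.Q
      ring
    rw [h7]
    calc _ ≤ |c.Q t - c'.Q x| + |c.Q u - c'.Q y| := abs_sub _ _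
      _ ≤ r + r := add_le_add h4 h6
      _ = 2 * r := by ring
  have hf1 : |f'| ≤ 3 * R := by
    rw [hf']
    have h7 := abs_le.1 hc'.α1
    have h8 := mul_nonneg hc'.κ0 hn1.1
    have h9 : c'.κ * n ≤ 1 := by nlinarith [hc'.κ0, hc'.κ1, hn1.1, hn1.2]
    rw [abs_le]
    constructor <;> linarith [h7.1, h7.2]
  have hg1 : |g'| ≤ 3 * R := by
    rw [hg']
    have h7 := abs_le.1 hc'.β1
    have h8 := mul_nonneg (sub_nonneg.2 hc'.κ1) hn1.1
    have h9 : (1 - c'.κ) * n ≤ 1 := by nlinarith [hc'.κ0, hc'.κ1, hn1.1, hn1.2]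
    rw [abs_le]
    constructor <;> linarith [h7.1, h7.2]
  have hmain : |t - u| * |p' * g' - q' * f'| ≤ 12 * R * r := by
    have h7 : (t - u) * (p' * g' - q' * f') =
        ((t - u) * p' - (x - y) * f') * g' - ((t - u) * q' - (x - y) * g') * f' := by ring
    rw [← abs_mul, h7]
    calc _ ≤ |((t - u) * p' - (x - y) * f') * g'| + |((t - u) * q' - (x - y) * g') * f'| := abs_sub _ _
      _ = |(t - u) * p' - (x - y) * f'| * |g'| + |(t - u) * q' - (x - y) * g'| * |f'| := by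
          rw [abs_mul, abs_mul]
      _ ≤ 2 * r * (3 * R) + 2 * r * (3 * R) := by gcongr
      _ = _ := by ring
  rw [le_div_iff₀ (by positivity)]
  have h7 : |t - u| * (τ * b ^ 2 / 2) ≤ 12 * R * r :=
    (mul_le_mul_of_nonneg_left hlow (abs_nonneg _)).trans hmain
  linarith

/-- **The pair estimate.** The area of the set of the pairs of times at which two good curves with
the parameters `κ`, `κ'` are close. -/
theorem pair_area {R b l : ℝ} (hR : 1 ≤ R) (hb : 0 < b) (hb1 : b ≤ 1) (hl : l ≤ 1) {c c' : Cv}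
    (hc : c.Good R b l) (hc' : c'.Good R b l) {r T y : ℝ} (hr0 : 0 < r) (hr : r ≤ 1) (hT0 : 0 < T)
    (hT : T ≤ max |c.κ - c'.κ| r) (hy : 0 ≤ y) (hTy : r ≤ T ^ 2 * y ^ 3) :
    (volume.prod volume : Measure (ℝ × ℝ)) (Z c c' l r) ≤
      ENNReal.ofReal (768 * R / b ^ 3 * (r * y)) := by
  have hR0 : 0 < R := by linarith
  have hy0 : 0 < y := by
    rcases hy.eq_or_lt with h | h
    · rw [← h] at hTy
      norm_num at hTy
      linarith
    · exact h
  have hb3 : b ^ 3 ≤ b := by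
    have : b ^ 2 ≤ 1 := pow_le_one₀ hb.le hb1
    nlinarith
  have hmeas : ∀ Y : Set (ℝ × ℝ), IsClosed Y → MeasurableSet Y := fun Y h => h.measurableSet
  rcases lt_or_ge |c.κ - c'.κ| r with hlt | hge
  · -- the parameters are close
    rw [max_eq_right hlt.le] at hT
    have hy1 : 1 ≤ y := by
      by_contra hcon
      push Not at hcon
      have h1 : y ^ 3 < 1 := pow_lt_one₀ hy hcon (by norm_num)
      have h2 : T ^ 2 ≤ r ^ 2 := pow_le_pow_left₀ hT0.le hT 2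
      have h3 : T ^ 2 * y ^ 3 < r ^ 2 := by
        have : 0 < T ^ 2 := by positivity
        nlinarith
      nlinarith
    refine (prod_le (Z c c' l r) (hmeas _ (isClosed_Z c c' l r)) (c.J l) (ENNReal.ofReal 1)
      (ENNReal.ofReal (4 * r / b)) (fun z hz => hz.1) ?_ fun t => section1 hb hc' t _ subset_rfl).trans ?_
    · unfold Cv.J
      rw [Real.volume_Icc]
      exact ENNReal.ofReal_le_ofReal (by linarith)
    · rw [← ENNReal.ofReal_mul (by positivity)]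
      refine ENNReal.ofReal_le_ofReal ?_
      have h1 : 4 * r / b * 1 ≤ 768 * R / b ^ 3 * (r * 1) := by
        rw [mul_one, mul_one, div_mul_eq_mul_div, div_le_div_iff₀ hb (by positivity)]
        have h2 : 4 * r * b ^ 3 ≤ 4 * r * b := mul_le_mul_of_nonneg_left hb3 (by positivity)
        have h3 : 4 * r * b ≤ 768 * R * r * b := by
          have : 0 < r * b := by positivity
          nlinarith
        linarith
      refine h1.trans ?_
      gcongr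
  · -- separated parameters
    rw [max_eq_left hge] at hT
    obtain ⟨τ, hτ⟩ : ∃ τ : ℝ, τ = |c.κ - c'.κ| := ⟨_, rfl⟩
    rw [← hτ] at hT hge
    have hτ0 : 0 < τ := by linarith
    have hTy' : r ≤ τ ^ 2 * y ^ 3 := hTy.trans (by gcongr)
    obtain ⟨w, hw⟩ : ∃ w : ℝ, w = b ^ 2 * τ / (16 * R) := ⟨_, rfl⟩
    have hw0 : 0 < w := by rw [hw]; positivity
    obtain ⟨d, hd⟩ : ∃ d : ℝ, d = 7 * R / b * y := ⟨_, rfl⟩
    have hd0 : 0 < d := by rw [hd]; positivity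
    have hdw : 2 * (7 * R ^ 2 * r) < τ * w * d ^ 3 := by
      have h1 : τ * w * d ^ 3 = 343 / 16 * R ^ 2 * (τ ^ 2 * y ^ 3) / b := by
        rw [hw, hd]
        field_simp
        norm_num
      have h2 : 343 / 16 * R ^ 2 * r ≤ 343 / 16 * R ^ 2 * (τ ^ 2 * y ^ 3) / b := by
        rw [le_div_iff₀ hb]
        have h3 : 343 / 16 * R ^ 2 * r * b ≤ 343 / 16 * R ^ 2 * r * 1 := by gcongr
        have h4 : 343 / 16 * R ^ 2 * r ≤ 343 / 16 * R ^ 2 * (τ ^ 2 * y ^ 3) := by gcongr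
        linarith
      rw [h1]
      have h5 : 0 < R ^ 2 * r := by positivity
      linarith
    have hry : r / τ ≤ y := by
      have h1 : (r / τ) ^ 3 ≤ y ^ 3 := by
        rw [div_pow, div_le_iff₀ (by positivity)]
        have h2 : r ^ 3 ≤ r * τ := by
          have h4 : r ^ 2 ≤ τ := by nlinarith
          calc r ^ 3 = r * r ^ 2 := by ring
            _ ≤ r * τ := mul_le_mul_of_nonneg_left h4 hr0.le
        have h3 : r * τ ≤ y ^ 3 * τ ^ 3 := by
          have : r * τ ≤ τ ^ 2 * y ^ 3 * τ := mul_le_mul_of_nonneg_right hTy' hτ0.le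
          linarith
        linarith
      exact le_of_pow_le_pow_left₀ (by norm_num) hy h1
    have hcl := isClosed_Z c c' l r
    obtain ⟨Z1, hZ1⟩ : ∃ Z1 : Set (ℝ × ℝ), Z1 = Z c c' l r ∩
      {z | w ≤ |2 * (c.κ - c'.κ) * z.1 + ((1 - c'.κ) * c.α - c'.κ * c.β)|} := ⟨_, rfl⟩
    obtain ⟨Z2, hZ2⟩ : ∃ Z2 : Set (ℝ × ℝ), Z2 = Z c c' l r ∩
      {z | w ≤ |2 * (c'.κ - c.κ) * z.2 + ((1 - c.κ) * c'.α - c.κ * c'.β)|} := ⟨_, rfl⟩
    obtain ⟨Z0, hZ0⟩ : ∃ Z0 : Set (ℝ × ℝ), Z0 = Z c c' l r ∩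
      ({z | |2 * (c.κ - c'.κ) * z.1 + ((1 - c'.κ) * c.α - c'.κ * c.β)| ≤ w} ∩
       {z | |2 * (c'.κ - c.κ) * z.2 + ((1 - c.κ) * c'.α - c.κ * c'.β)| ≤ w}) := ⟨_, rfl⟩
    have hcov : Z c c' l r ⊆ Z1 ∪ Z2 ∪ Z0 := by
      intro z hz
      rw [hZ1, hZ2, hZ0]
      rcases le_total w |2 * (c.κ - c'.κ) * z.1 + ((1 - c'.κ) * c.α - c'.κ * c.β)| with h1 | h1
      · exact Or.inl (Or.inl ⟨hz, h1⟩)
      rcases le_total w |2 * (c'.κ - c.κ) * z.2 + ((1 - c.κ) * c'.α - c.κ * c'.β)| with h2 | h2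
      · exact Or.inl (Or.inr ⟨hz, h2⟩)
      · exact Or.inr ⟨hz, h1, h2⟩
    have hm1 : MeasurableSet Z1 := by
      rw [hZ1]
      refine hmeas _ (hcl.inter (isClosed_le continuous_const ?_))
      exact ((continuous_const.mul continuous_fst).add continuous_const).abs
    have hm2 : MeasurableSet Z2 := by
      rw [hZ2]
      refine hmeas _ (hcl.inter (isClosed_le continuous_const ?_))
      exact ((continuous_const.mul continuous_snd).add continuous_const).abs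
    have hm0 : MeasurableSet Z0 := by
      rw [hZ0]
      refine hmeas _ (hcl.inter ((isClosed_le ?_ continuous_const).inter
        (isClosed_le ?_ continuous_const)))
      · exact ((continuous_const.mul continuous_fst).add continuous_const).abs
      · exact ((continuous_const.mul continuous_snd).add continuous_const).abs
    have hs1 : Z1 ⊆ Z c c' l r := by rw [hZ1]; exact inter_subset_left
    have hs2 : Z2 ⊆ Z c c' l r := by rw [hZ2]; exact inter_subset_left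
    have hs0 : Z0 ⊆ Z c c' l r := by rw [hZ0]; exact inter_subset_left
    obtain ⟨c2, c1, c0, hres⟩ := resultant_small' hR c hc'
    obtain ⟨e2, e1, e0, hres'⟩ := resultant_small' hR c' hc
    have h1 : (volume.prod volume : Measure (ℝ × ℝ)) Z1 ≤
        ENNReal.ofReal (4 * r / b) * ENNReal.ofReal (12 * d) := by
      refine prod_le Z1 hm1 _ _ _ (fun z hz => ?_) (quartic_small' (c.κ - c'.κ)
        ((1 - c'.κ) * c.α - c'.κ * c.β) c2 c1 c0 w (7 * R ^ 2 * r) d hd0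
        (by rw [← hτ]; exact hdw)) fun t => section1 hb hc' t _ hs1
      rw [hZ1] at hz
      obtain ⟨⟨-, hz2, hz3, hz4⟩, hz5⟩ := hz
      exact ⟨hres r z.1 z.2 hr0.le hr hz2 hz3 hz4, hz5⟩
    have h2 : (volume.prod volume : Measure (ℝ × ℝ)) Z2 ≤
        ENNReal.ofReal (4 * r / b) * ENNReal.ofReal (12 * d) := by
      refine prod_le_symm Z2 hm2 _ _ _ (fun z hz => ?_) (quartic_small' (c'.κ - c.κ)
        ((1 - c.κ) * c'.α - c.κ * c'.β) e2 e1 e0 w (7 * R ^ 2 * r) d hd0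
        (by rw [abs_sub_comm, ← hτ]; exact hdw)) fun t => section2 hb hc t _ hs2
      rw [hZ2] at hz
      obtain ⟨⟨hz1, -, hz3, hz4⟩, hz5⟩ := hz
      exact ⟨hres' r z.2 z.1 hr0.le hr hz1 (by rwa [abs_sub_comm]) (by rwa [abs_sub_comm]), hz5⟩
    have h0 : (volume.prod volume : Measure (ℝ × ℝ)) Z0 ≤
        ENNReal.ofReal (4 * r / b) * ENNReal.ofReal (24 * R * r / (τ * b ^ 2)) := by
      refine prod_le Z0 hm0 (Prod.fst '' Z0) (ENNReal.ofReal (24 * R * r / (τ * b ^ 2)))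
        (ENNReal.ofReal (4 * r / b)) (fun z hz => mem_image_of_mem _ hz)
        (vol_le_of_close _ _ ?_) fun t => section1 hb hc' t _ hs0
      rintro _ ⟨⟨t, x⟩, htx, rfl⟩ _ ⟨⟨u, y'⟩, huy, rfl⟩
      rw [hZ0] at htx huy
      exact transversal hR hb hc hc' hr0.le hτ hτ0 hw htx.1 huy.1 htx.2.1 huy.2.1 htx.2.2 huy.2.2
    refine (measure_mono hcov).trans ((measure_union_le _ _).trans
      (add_le_add ((measure_union_le _ _).trans (add_le_add h1 h2)) h0) |>.trans ?_)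
    rw [← ENNReal.ofReal_mul (by positivity), ← ENNReal.ofReal_mul (by positivity),
      ← ENNReal.ofReal_add (by positivity) (by positivity),
      ← ENNReal.ofReal_add (by positivity) (by positivity)]
    refine ENNReal.ofReal_le_ofReal ?_
    have h3 : 4 * r / b * (12 * d) + 4 * r / b * (12 * d) = 672 * R * (r * y) / b ^ 2 := by
      rw [hd]
      field_simp
      norm_num
    have h4 : 4 * r / b * (24 * R * r / (τ * b ^ 2)) = 96 * R * (r * (r / τ)) / b ^ 3 := by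
      field_simp
      norm_num
    have h5 : 96 * R * (r * (r / τ)) / b ^ 3 ≤ 96 * R * (r * y) / b ^ 3 := by gcongr
    have h6 : 672 * R * (r * y) / b ^ 2 ≤ 672 * R * (r * y) / b ^ 3 := by
      apply div_le_div_of_nonneg_left (by positivity) (by positivity)
      have : b ^ 3 = b ^ 2 * b := by ring
      rw [this]
      exact mul_le_of_le_one_right (by positivity) hb1
    have h7 : 768 * R / b ^ 3 * (r * y) = 672 * R * (r * y) / b ^ 3 + 96 * R * (r * y) / b ^ 3 := by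
      ring
    rw [h3, h4, h7]
    exact add_le_add h6 h5

end Pool.Agent.H58.BR
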