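import Pool.Agent.H58.BR.Pair
import Pool.Agent.H58.BR.Energy

/-!
# A family of parabola-like curves times a cube: the lower bound of the dimension
-/

set_option autoImplicit false

open MeasureTheory Set Metric
open scoped ENNReal NNReal

namespace Pool.Agent.H58.BR

open Cv

/-- the curve -/
def γ (c : Cv) (t : ℝ) : ℝ × ℝ := (c.P t, c.Q t)

theorem cont_γ (c : Cv) : Continuous (γ c) := (cont_P c).prodMk (cont_Q c)

/-- the cube roots of the natural numbers -/
noncomputable def cr (m : ℕ) : ℝ := (m : ℝ) ^ (1 / 3 : ℝ)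

theorem cr_cube (m : ℕ) : cr m ^ 3 = m := by
  unfold cr
  rw [← Real.rpow_natCast, ← Real.rpow_mul (Nat.cast_nonneg m)]
  norm_num

theorem cr_nonneg (m : ℕ) : 0 ≤ cr m := Real.rpow_nonneg (Nat.cast_nonneg m) _

theorem cr_zero : cr 0 = 0 := by
  unfold cr
  rw [Nat.cast_zero, Real.zero_rpow (by norm_num)]

theorem cr_mono {m n : ℕ} (h : m ≤ n) : cr m ≤ cr n :=
  Real.rpow_le_rpow (Nat.cast_nonneg m) (by exact_mod_cast h) (by norm_num)

theorem cr_pos {m : ℕ} (h : 0 < m) : 0 < cr m := Real.rpow_pos_of_pos (by exact_mod_cast h) _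

theorem cr_step (m : ℕ) : 1 ≤ 3 * cr (m + 1) ^ 2 * (cr (m + 1) - cr m) := by
  have h1 := cr_cube m
  have h2 := cr_cube (m + 1)
  push_cast at h2
  have h3 := cr_mono (Nat.le_succ m)
  have h4 := cr_nonneg m
  rw [Nat.succ_eq_add_one] at h3
  have h5 : cr (m + 1) ^ 3 - cr m ^ 3 = 1 := by rw [h1, h2]; ring
  have h6 : cr (m + 1) ^ 3 - cr m ^ 3 =
      (cr (m + 1) - cr m) * (cr (m + 1) ^ 2 + cr (m + 1) * cr m + cr m ^ 2) := by ring
  have h7 : cr (m + 1) ^ 2 + cr (m + 1) * cr m + cr m ^ 2 ≤ 3 * cr (m + 1) ^ 2 := by nlinarith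
  have h8 : 0 ≤ cr (m + 1) - cr m := by linarith
  nlinarith [mul_le_mul_of_nonneg_left h7 h8]

/-- the distance of two natural numbers -/
def nd (i j : ℕ) : ℕ := (i - j) + (j - i)

theorem nd_cast (i j : ℕ) : ((nd i j : ℕ) : ℝ) = |(i : ℝ) - j| := by
  unfold nd
  rcases le_total i j with h | h
  · rw [Nat.sub_eq_zero_of_le h, zero_add, Nat.cast_sub h, abs_sub_comm, abs_of_nonneg]
    have : (i : ℝ) ≤ j := by exact_mod_cast h
    linarith
  · rw [Nat.sub_eq_zero_of_le h, add_zero, Nat.cast_sub h, abs_of_nonneg]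
    have : (j : ℝ) ≤ i := by exact_mod_cast h
    linarith

theorem sum_nd (N i : ℕ) (hi : i < N) :
    ∑ j ∈ Finset.range N, (cr (nd i j + 1) - cr (nd i j)) ≤ 2 * cr N := by
  rw [← Finset.sum_range_add_sum_Ico _ (Nat.succ_le_of_lt hi)]
  have h1 : ∑ j ∈ Finset.range (i + 1), (cr (nd i j + 1) - cr (nd i j)) ≤ cr N := by
    have h2 : ∑ j ∈ Finset.range (i + 1), (cr (nd i j + 1) - cr (nd i j)) =
        ∑ j ∈ Finset.range (i + 1), (cr (i + 1 - 1 - j + 1) - cr (i + 1 - 1 - j)) := by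
      refine Finset.sum_congr rfl fun j hj => ?_
      have h3 : nd i j = i + 1 - 1 - j := by
        rw [Finset.mem_range] at hj
        unfold nd
        omega
      rw [h3]
    rw [h2, Finset.sum_range_reflect (fun m => cr (m + 1) - cr m) (i + 1), Finset.sum_range_sub]
    rw [cr_zero, sub_zero]
    exact cr_mono (by omega)
  have h2 : ∑ j ∈ Finset.Ico (i + 1) N, (cr (nd i j + 1) - cr (nd i j)) ≤ cr N := by
    rw [Finset.sum_Ico_eq_sum_range]
    have h3 : ∑ k ∈ Finset.range (N - (i + 1)), (cr (nd i (i + 1 + k) + 1) - cr (nd i (i + 1 + k))) =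
        ∑ k ∈ Finset.range (N - (i + 1)), (cr (k + 1 + 1) - cr (k + 1)) := by
      refine Finset.sum_congr rfl fun k _ => ?_
      have h4 : nd i (i + 1 + k) = k + 1 := by
        unfold nd
        omega
      rw [h4]
    rw [h3, Finset.sum_range_sub (fun k => cr (k + 1))]
    have h4 := cr_nonneg (0 + 1)
    have h5 : cr (N - (i + 1) + 1) ≤ cr N := cr_mono (by omega)
    linarith
  rw [Nat.succ_eq_add_one]
  linarith

section

variable {ι : Type*} [Fintype ι]

/-- the measure of one curve times a cube -/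
noncomputable def mu1 (c : Cv) (l ε : ℝ) : Measure ((ℝ × ℝ) × (ι → ℝ)) :=
  ((volume.restrict (c.J l)).map (γ c)).prod (volume.restrict (Icc (0 : ι → ℝ) (fun _ => ε)))

instance (c : Cv) (l ε : ℝ) : IsFiniteMeasure (mu1 (ι := ι) c l ε) := by
  unfold mu1
  have h1 : IsFiniteMeasure (volume.restrict (c.J l)) := by
    unfold Cv.J
    infer_instance
  have h2 : IsFiniteMeasure (volume.restrict (Icc (0 : ι → ℝ) (fun _ => ε))) :=
    ⟨by rw [Measure.restrict_apply_univ]; exact isCompact_Icc.measure_lt_top⟩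
  infer_instance

theorem sf_mu1 (c : Cv) (l ε : ℝ) (_ : IsFiniteMeasure (mu1 (ι := ι) c l ε)) :
    SFinite (mu1 (ι := ι) c l ε) := by
  have h : SigmaFinite (mu1 (ι := ι) c l ε) := inferInstance
  infer_instance

theorem mu1_ge (c : Cv) {l ε : ℝ} (hl : 0 ≤ l) (hε : 0 ≤ ε) (G : Set ((ℝ × ℝ) × (ι → ℝ)))
    (hG : IsClosed G)
    (h : ∀ t ∈ c.J l, ∀ u : ι → ℝ, (∀ i, 0 ≤ u i ∧ u i ≤ ε) → ((c.P t, c.Q t), u) ∈ G) :
    ENNReal.ofReal (l * ε ^ Fintype.card ι) ≤ mu1 c l ε G := by
  have h1 : IsFiniteMeasure (volume.restrict (c.J l)) := by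
    unfold Cv.J
    infer_instance
  have h2 : IsFiniteMeasure (volume.restrict (Icc (0 : ι → ℝ) (fun _ => ε))) :=
    ⟨by rw [Measure.restrict_apply_univ]; exact isCompact_Icc.measure_lt_top⟩
  have h3 : mu1 c l ε = ((volume.restrict (c.J l)).prod
      (volume.restrict (Icc (0 : ι → ℝ) (fun _ => ε)))).map (Prod.map (γ c) id) := by
    unfold mu1
    rw [← Measure.map_prod_map _ _ (cont_γ c).measurable measurable_id, Measure.map_id]
  rw [h3, Measure.map_apply ((cont_γ c).measurable.prodMap measurable_id) hG.measurableSet]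
  have h4 : (c.J l) ×ˢ (Icc (0 : ι → ℝ) (fun _ => ε)) ⊆ Prod.map (γ c) id ⁻¹' G := by
    rintro ⟨t, u⟩ ⟨ht, hu⟩
    exact h t ht u fun i => ⟨hu.1 i, hu.2 i⟩
  refine le_trans ?_ (measure_mono h4)
  rw [Measure.prod_prod, Measure.restrict_apply_self, Measure.restrict_apply_self,
    Real.volume_Icc_pi]
  unfold Cv.J
  rw [Real.volume_Icc, add_sub_cancel_left]
  simp only [Pi.zero_apply, sub_zero, Finset.prod_const, Finset.card_univ]
  rw [ENNReal.ofReal_mul hl, ENNReal.ofReal_pow hε]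

theorem mu1_ball (c c' : Cv) {l ε r : ℝ} (hε : 0 ≤ ε) (hr : 0 ≤ r) :
    ∫⁻ z, mu1 (ι := ι) c' l ε (closedBall z r) ∂(mu1 c l ε) ≤
      ENNReal.ofReal ((2 * r) ^ Fintype.card ι * ε ^ Fintype.card ι) *
        (volume.prod volume : Measure (ℝ × ℝ)) (Z c c' l r) := by
  have h1 : IsFiniteMeasure (volume.restrict (c.J l)) := by
    unfold Cv.J
    infer_instance
  have h1' : IsFiniteMeasure (volume.restrict (c'.J l)) := by
    unfold Cv.J
    infer_instance
  have h2 : IsFiniteMeasure (volume.restrict (Icc (0 : ι → ℝ) (fun _ => ε))) :=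
    ⟨by rw [Measure.restrict_apply_univ]; exact isCompact_Icc.measure_lt_top⟩
  obtain ⟨ν, hν⟩ : ∃ ν : Measure (ℝ × ℝ), ν = (volume.restrict (c.J l)).map (γ c) := ⟨_, rfl⟩
  obtain ⟨ν', hν'⟩ : ∃ ν' : Measure (ℝ × ℝ), ν' = (volume.restrict (c'.J l)).map (γ c') := ⟨_, rfl⟩
  have : IsFiniteMeasure ν := by rw [hν]; infer_instance
  have : IsFiniteMeasure ν' := by rw [hν']; infer_instance
  have hm : Measurable fun p : ℝ × ℝ => ν' (closedBall p r) := by
    have h3 : MeasurableSet {q : (ℝ × ℝ) × (ℝ × ℝ) | dist q.2 q.1 ≤ r} :=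
      (isClosed_le (by fun_prop) continuous_const).measurableSet
    exact measurable_measure_prodMk_left h3
  calc ∫⁻ z, mu1 (ι := ι) c' l ε (closedBall z r) ∂(mu1 c l ε)
      ≤ ∫⁻ z : (ℝ × ℝ) × (ι → ℝ), ν' (closedBall z.1 r) * ENNReal.ofReal ((2 * r) ^ Fintype.card ι)
          ∂(mu1 c l ε) := by
        refine lintegral_mono fun z => ?_
        unfold mu1
        rw [← hν', ← closedBall_prod_same, Measure.prod_prod]
        gcongr
        refine (Measure.restrict_apply_le _ _).trans ?_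
        rw [Real.volume_pi_closedBall _ hr]
    _ = (∫⁻ z : (ℝ × ℝ) × (ι → ℝ), ν' (closedBall z.1 r) ∂(mu1 c l ε)) *
          ENNReal.ofReal ((2 * r) ^ Fintype.card ι) := by
        have hm2 : Measurable fun z : (ℝ × ℝ) × (ι → ℝ) => ν' (closedBall z.1 r) :=
          hm.comp measurable_fst
        rw [lintegral_mul_const _ hm2]
    _ = (ENNReal.ofReal (ε ^ Fintype.card ι) * ∫⁻ p, ν' (closedBall p r) ∂ν) *
          ENNReal.ofReal ((2 * r) ^ Fintype.card ι) := by
        congr 1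
        have h3 : ∫⁻ z : (ℝ × ℝ) × (ι → ℝ), ν' (closedBall z.1 r) ∂(mu1 c l ε) =
            ∫⁻ p, ν' (closedBall p r) ∂((mu1 (ι := ι) c l ε).map Prod.fst) := by
          rw [lintegral_map hm measurable_fst]
        rw [h3]
        unfold mu1
        rw [← hν, Measure.map_fst_prod, lintegral_smul_measure, Measure.restrict_apply_univ,
          Real.volume_Icc_pi]
        simp only [Pi.zero_apply, sub_zero, Finset.prod_const, Finset.card_univ, smul_eq_mul]
        rw [ENNReal.ofReal_pow hε]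
    _ ≤ (ENNReal.ofReal (ε ^ Fintype.card ι) * (volume.prod volume : Measure (ℝ × ℝ)) (Z c c' l r)) *
          ENNReal.ofReal ((2 * r) ^ Fintype.card ι) := by
        gcongr
        rw [hν, lintegral_map hm (cont_γ c).measurable,
          Measure.prod_apply (isClosed_Z c c' l r).measurableSet]
        rw [← lintegral_indicator (by unfold Cv.J; exact measurableSet_Icc)]
        refine lintegral_mono fun t => ?_
        by_cases ht : t ∈ c.J l
        · rw [indicator_of_mem ht, hν', Measure.map_apply (cont_γ c').measurable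
            isClosed_closedBall.measurableSet, Measure.restrict_apply
            ((cont_γ c').measurable isClosed_closedBall.measurableSet)]
          refine measure_mono ?_
          rintro x ⟨hx1, hx2⟩
          rw [mem_preimage, mem_closedBall, dist_comm, Prod.dist_eq, max_le_iff] at hx1
          exact ⟨ht, hx2, hx1.1, hx1.2⟩
        · rw [indicator_of_notMem ht]
          exact bot_le
    _ = _ := by
        rw [ENNReal.ofReal_mul (by positivity)]
        ring

end

/-- **Curves times a cube.** A compact set which for every `κ ∈ [1/4, 3/4]` contains the product of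
a good curve with the parameter `κ` and a fixed cube of dimension `d` has dimension `≥ 4/3 + d`. -/
theorem planar {ι : Type*} [Fintype ι] {G : Set ((ℝ × ℝ) × (ι → ℝ))} (hG : IsCompact G)
    {R b l ε : ℝ} (hR : 1 ≤ R) (hb : 0 < b) (hb1 : b ≤ 1) (hl0 : 0 < l) (hl : l ≤ 1) (hε : 0 < ε)
    (h : ∀ κ : ℝ, 1 / 4 ≤ κ → κ ≤ 3 / 4 → ∃ c : Cv, c.κ = κ ∧ c.Good R b l ∧
      ∀ t ∈ c.J l, ∀ u : ι → ℝ, (∀ i, 0 ≤ u i ∧ u i ≤ ε) → ((c.P t, c.Q t), u) ∈ G) :
    ENNReal.ofReal (4 / 3 + Fintype.card ι) ≤ dimH G := by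
  obtain ⟨K3, hK3⟩ : ∃ K3 : ℝ, K3 = 768 * R / b ^ 3 := ⟨_, rfl⟩
  have hK30 : 0 < K3 := by
    rw [hK3]
    have : 0 < R := by linarith
    positivity
  obtain ⟨d, hd⟩ : ∃ d : ℕ, d = Fintype.card ι := ⟨_, rfl⟩
  rw [← hd]
  refine le_dimH_of_truncated hG (c := l * ε ^ d) (C := (2 * ε) ^ d * (13 * K3)) (by positivity)
    (by positivity) fun r0 hr0 => ?_
  obtain ⟨N, hN⟩ := exists_nat_gt (1 / r0)
  have hN0 : (0 : ℝ) < N := lt_trans (by positivity) hN
  have hNpos : 0 < N := by exact_mod_cast hN0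
  have hNr : 1 / (N : ℝ) ≤ r0 := by
    rw [div_le_iff₀ hN0]
    rw [div_lt_iff₀ hr0] at hN
    linarith
  have hex : ∀ i : ℕ, ∃ c : Cv, i < N → (c.κ = 1 / 4 + i / (2 * N) ∧ c.Good R b l ∧
      ∀ t ∈ c.J l, ∀ u : ι → ℝ, (∀ i, 0 ≤ u i ∧ u i ≤ ε) → ((c.P t, c.Q t), u) ∈ G) := by
    intro i
    by_cases hi : i < N
    · have h1 : (i : ℝ) ≤ N := by exact_mod_cast hi.le
      have h2 : (i : ℝ) / (2 * N) ≤ 1 / 2 := by
        rw [div_le_iff₀ (by positivity)]
        linarith
      obtain ⟨c, hc⟩ := h (1 / 4 + i / (2 * N)) (by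
        have : (0 : ℝ) ≤ i / (2 * N) := by positivity
        linarith) (by linarith)
      exact ⟨c, fun _ => hc⟩
    · exact ⟨⟨0, 0, 0, 0, 0, 0⟩, fun h => absurd h hi⟩
  choose c hc using hex
  obtain ⟨S, hS⟩ : ∃ S : Measure ((ℝ × ℝ) × (ι → ℝ)), S = ∑ i ∈ Finset.range N, mu1 (c i) l ε :=
    ⟨_, rfl⟩
  have hSf : IsFiniteMeasure S := by
    rw [hS]
    infer_instance
  have hNt : (N : ℝ≥0∞) ≠ ⊤ := ENNReal.natCast_ne_top N
  have hN0' : (N : ℝ≥0∞) ≠ 0 := by exact_mod_cast hNpos.ne'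
  refine ⟨(N : ℝ≥0∞)⁻¹ • S, ?_, ?_, ?_⟩
  · refine ⟨?_⟩
    rw [Measure.smul_apply, smul_eq_mul]
    exact ENNReal.mul_lt_top (ENNReal.inv_lt_top.2 (by exact_mod_cast hNpos)) (measure_lt_top S _)
  · rw [Measure.smul_apply, smul_eq_mul, hS, Measure.finsetSum_apply]
    calc ENNReal.ofReal (l * ε ^ d) =
          (N : ℝ≥0∞)⁻¹ * ∑ i ∈ Finset.range N, ENNReal.ofReal (l * ε ^ d) := by
          rw [Finset.sum_const, Finset.card_range, nsmul_eq_mul, ← mul_assoc,
            ENNReal.inv_mul_cancel hN0' hNt, one_mul]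
      _ ≤ _ := by
          gcongr with i hi
          rw [Finset.mem_range] at hi
          rw [hd]
          exact mu1_ge (c i) hl0.le hε.le G hG.isClosed (hc i hi).2.2
  · intro r hr hr1
    have hrpos : 0 < r := lt_of_lt_of_le hr0 hr
    obtain ⟨ρ, hρ⟩ : ∃ ρ : ℝ, ρ = r ^ (1 / 3 : ℝ) := ⟨_, rfl⟩
    have hρ0 : 0 < ρ := by rw [hρ]; positivity
    have hρ3 : ρ ^ 3 = r := by
      rw [hρ, ← Real.rpow_natCast, ← Real.rpow_mul hrpos.le]
      norm_num
    -- the pairs
    have hpair : ∀ i ∈ Finset.range N, ∀ j ∈ Finset.range N,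
        ∫⁻ z, mu1 (ι := ι) (c j) l ε (closedBall z r) ∂(mu1 (c i) l ε) ≤
          ENNReal.ofReal ((2 * r) ^ d * ε ^ d) *
          ENNReal.ofReal (K3 * (r * (6.3 * ρ * cr N ^ 2 * (cr (nd i j + 1) - cr (nd i j))))) := by
      intro i hi j hj
      rw [Finset.mem_range] at hi hj
      rw [hd]
      refine (mu1_ball (ι := ι) (c i) (c j) hε.le hrpos.le).trans ?_
      gcongr
      rw [hK3]
      obtain ⟨m, hm⟩ : ∃ m : ℕ, m = nd i j := ⟨_, rfl⟩
      have hstep := cr_step m
      have hcr1 := cr_pos (Nat.succ_pos m)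
      rw [Nat.succ_eq_add_one] at hcr1
      have hdiff : 1 / (3 * cr (m + 1) ^ 2) ≤ cr (m + 1) - cr m := by
        rw [div_le_iff₀ (by positivity)]
        linarith
      have hcrN := cr_pos hNpos
      refine pair_area hR hb hb1 hl (hc i hi).2.1 (hc j hj).2.1 hrpos hr1
        (T := ((m : ℝ) + 1) / (3 * N)) (by positivity) ?_ ?_ ?_
      · -- the lower bound of the differences of the parameters
        rw [(hc i hi).1, (hc j hj).1]
        have h1 : |(1 / 4 + (i : ℝ) / (2 * N)) - (1 / 4 + (j : ℝ) / (2 * N))| = (m : ℝ) / (2 * N) := by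
          rw [hm, nd_cast]
          have h2 : (1 / 4 + (i : ℝ) / (2 * N)) - (1 / 4 + (j : ℝ) / (2 * N)) = (i - j) / (2 * N) := by
            ring
          rw [h2, abs_div, abs_of_pos (show (0 : ℝ) < 2 * N by positivity)]
        rw [h1]
        rcases le_or_gt m 1 with hm1 | hm1
        · refine le_trans ?_ (le_max_right _ _)
          refine le_trans ?_ (hNr.trans hr)
          have h2 : (m : ℝ) ≤ 1 := by exact_mod_cast hm1
          rw [div_le_div_iff₀ (by positivity) hN0]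
          nlinarith
        · refine le_trans ?_ (le_max_left _ _)
          have h2 : (2 : ℝ) ≤ m := by exact_mod_cast hm1
          rw [div_le_div_iff₀ (by positivity) (by positivity)]
          nlinarith
      · have : 0 ≤ cr (nd i j + 1) - cr (nd i j) := sub_nonneg.2 (cr_mono (Nat.le_succ _))
        positivity
      · rw [← hm]
        have h1 : 2.1 * ρ * cr N ^ 2 / cr (m + 1) ^ 2 ≤
            6.3 * ρ * cr N ^ 2 * (cr (m + 1) - cr m) := by
          calc 2.1 * ρ * cr N ^ 2 / cr (m + 1) ^ 2 =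
                6.3 * ρ * cr N ^ 2 * (1 / (3 * cr (m + 1) ^ 2)) := by
                field_simp
                norm_num
            _ ≤ _ := by gcongr
        have h2 : (2.1 * ρ * cr N ^ 2 / cr (m + 1) ^ 2) ^ 3 ≤
            (6.3 * ρ * cr N ^ 2 * (cr (m + 1) - cr m)) ^ 3 :=
          pow_le_pow_left₀ (by positivity) h1 3
        have h3 : (2.1 * ρ * cr N ^ 2 / cr (m + 1) ^ 2) ^ 3 =
            9.261 * r * (N : ℝ) ^ 2 / ((m : ℝ) + 1) ^ 2 := by
          have h4 := cr_cube N
          have h5 := cr_cube (m + 1)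
          push_cast at h5
          have h6 : (2.1 * ρ * cr N ^ 2 / cr (m + 1) ^ 2) ^ 3 =
              9.261 * ρ ^ 3 * (cr N ^ 3) ^ 2 / (cr (m + 1) ^ 3) ^ 2 := by
            rw [div_pow]
            ring
          rw [h6, hρ3, h4, h5]
        have h4 : (((m : ℝ) + 1) / (3 * N)) ^ 2 * (9.261 * r * (N : ℝ) ^ 2 / ((m : ℝ) + 1) ^ 2) =
            1.029 * r := by
          have : (m : ℝ) + 1 ≠ 0 := by positivity
          field_simp
          norm_num
        calc r ≤ 1.029 * r := by linarith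
          _ = (((m : ℝ) + 1) / (3 * N)) ^ 2 * (2.1 * ρ * cr N ^ 2 / cr (m + 1) ^ 2) ^ 3 := by
              rw [h3, h4]
          _ ≤ _ := by gcongr
    -- the sum
    have hbound : ∫⁻ z, ((N : ℝ≥0∞)⁻¹ • S) (closedBall z r) ∂((N : ℝ≥0∞)⁻¹ • S) =
        (N : ℝ≥0∞)⁻¹ * ((N : ℝ≥0∞)⁻¹ * ∑ i ∈ Finset.range N, ∑ j ∈ Finset.range N,
          ∫⁻ z, mu1 (ι := ι) (c j) l ε (closedBall z r) ∂(mu1 (c i) l ε)) := by
      have hmj : ∀ j, Measurable fun z : (ℝ × ℝ) × (ι → ℝ) => mu1 (ι := ι) (c j) l ε (closedBall z r) := by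
        intro j
        have h3 : MeasurableSet {q : ((ℝ × ℝ) × (ι → ℝ)) × ((ℝ × ℝ) × (ι → ℝ)) | dist q.2 q.1 ≤ r} :=
          (isClosed_le (by fun_prop) continuous_const).measurableSet
        have h4 : SFinite (mu1 (ι := ι) (c j) l ε) := sf_mu1 _ _ _ inferInstance
        exact measurable_measure_prodMk_left (ν := mu1 (ι := ι) (c j) l ε) h3
      rw [lintegral_smul_measure, smul_eq_mul]
      congr 1
      have h1 : ∀ z : (ℝ × ℝ) × (ι → ℝ), ((N : ℝ≥0∞)⁻¹ • S) (closedBall z r) =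
          (N : ℝ≥0∞)⁻¹ * ∑ j ∈ Finset.range N, mu1 (ι := ι) (c j) l ε (closedBall z r) := by
        intro z
        rw [Measure.smul_apply, smul_eq_mul, hS, Measure.finsetSum_apply]
      simp_rw [h1]
      rw [lintegral_const_mul _ (Finset.measurable_sum _ fun j _ => hmj j)]
      congr 1
      rw [hS, lintegral_finsetSum_measure]
      refine Finset.sum_congr rfl fun i _ => ?_
      rw [lintegral_finsetSum _ fun j _ => hmj j]
    rw [hbound]
    obtain ⟨a, ha⟩ : ∃ a : ℝ, a = (2 * r) ^ d * ε ^ d * (K3 * (r * (6.3 * ρ * cr N ^ 2))) := ⟨_, rfl⟩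
    have ha0 : 0 ≤ a := by
      rw [ha]
      positivity
    have hsum : ∑ i ∈ Finset.range N, ∑ j ∈ Finset.range N,
        ∫⁻ z, mu1 (ι := ι) (c j) l ε (closedBall z r) ∂(mu1 (c i) l ε) ≤
        ENNReal.ofReal (N * (a * (2 * cr N))) := by
      calc _ ≤ ∑ i ∈ Finset.range N, ∑ j ∈ Finset.range N,
            ENNReal.ofReal (a * (cr (nd i j + 1) - cr (nd i j))) := by
            refine Finset.sum_le_sum fun i hi => Finset.sum_le_sum fun j hj => ?_
            refine (hpair i hi j hj).trans ?_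
            rw [← ENNReal.ofReal_mul (by positivity)]
            refine le_of_eq ?_
            congr 1
            rw [ha]
            ring
        _ = ENNReal.ofReal (∑ i ∈ Finset.range N, ∑ j ∈ Finset.range N,
              a * (cr (nd i j + 1) - cr (nd i j))) := by
            have h1 : ∀ i j, 0 ≤ a * (cr (nd i j + 1) - cr (nd i j)) := fun i j =>
              mul_nonneg ha0 (sub_nonneg.2 (cr_mono (Nat.le_succ _)))
            rw [ENNReal.ofReal_sum_of_nonneg fun i _ => Finset.sum_nonneg fun j _ => h1 i j]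
            refine Finset.sum_congr rfl fun i _ => ?_
            rw [ENNReal.ofReal_sum_of_nonneg fun j _ => h1 i j]
        _ ≤ _ := by
            refine ENNReal.ofReal_le_ofReal ?_
            calc _ ≤ ∑ i ∈ Finset.range N, a * (2 * cr N) := by
                  refine Finset.sum_le_sum fun i hi => ?_
                  rw [← Finset.mul_sum]
                  exact mul_le_mul_of_nonneg_left (sum_nd N i (Finset.mem_range.1 hi)) ha0
              _ = _ := by rw [Finset.sum_const, Finset.card_range, nsmul_eq_mul]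
    calc _ ≤ (N : ℝ≥0∞)⁻¹ * ((N : ℝ≥0∞)⁻¹ * ENNReal.ofReal (N * (a * (2 * cr N)))) := by gcongr
      _ = ENNReal.ofReal ((N : ℝ)⁻¹ * ((N : ℝ)⁻¹ * (N * (a * (2 * cr N))))) := by
          have h1 : (N : ℝ≥0∞)⁻¹ = ENNReal.ofReal ((N : ℝ)⁻¹) := by
            rw [ENNReal.ofReal_inv_of_pos hN0, ENNReal.ofReal_natCast]
          rw [h1, ← ENNReal.ofReal_mul (by positivity), ← ENNReal.ofReal_mul (by positivity)]
      _ ≤ _ := by
          refine ENNReal.ofReal_le_ofReal ?_
          have h1 : (N : ℝ)⁻¹ * ((N : ℝ)⁻¹ * (N * (a * (2 * cr N)))) =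
              (2 * r) ^ d * ε ^ d * (12.6 * K3 * (r * ρ)) := by
            have h2 : cr N ^ 2 * cr N = N := by rw [← cr_cube N]; ring
            calc _ = (N : ℝ)⁻¹ * (a * (2 * cr N)) := by field_simp
              _ = (N : ℝ)⁻¹ * ((2 * r) ^ d * ε ^ d * (12.6 * K3 * (r * ρ)) * (cr N ^ 2 * cr N)) := by
                  rw [ha]; ring
              _ = _ := by rw [h2]; field_simp
          have h2 : r ^ (4 / 3 + d : ℝ) = r ^ d * (r * ρ) := by
            rw [Real.rpow_add hrpos, Real.rpow_natCast, hρ]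
            have h3 : r ^ (4 / 3 : ℝ) = r * r ^ (1 / 3 : ℝ) := by
              rw [show (4 / 3 : ℝ) = 1 + 1 / 3 by norm_num, Real.rpow_add hrpos, Real.rpow_one]
            rw [h3]
            ring
          rw [h1, h2, mul_pow, mul_pow]
          have h3 : 0 ≤ 2 ^ d * r ^ d * ε ^ d * (K3 * (r * ρ)) := by positivity
          nlinarith

end Pool.Agent.H58.BR
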