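import Mathlib

/-!
# Sets without four separated points; a quartic polynomial at four separated points
-/

set_option autoImplicit false

open MeasureTheory Set Metric
open scoped ENNReal NNReal

namespace Pool.Agent.H58.BR

/-- A set of real numbers without four points at mutual distances at least `d` is small. -/
theorem volume_le_of_no_four (S : Set ℝ) (d : ℝ)
    (h : ∀ a ∈ S, ∀ b ∈ S, ∀ c ∈ S, ∀ e ∈ S, d ≤ |a - b| → d ≤ |a - c| → d ≤ |a - e| →
      d ≤ |b - c| → d ≤ |b - e| → d ≤ |c - e| → False) :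
    volume S ≤ ENNReal.ofReal (6 * d) := by
  have key : ∃ a b c : ℝ, S ⊆ ball a d ∪ ball b d ∪ ball c d := by
    by_contra hcon
    push Not at hcon
    have h1 : ∀ a b c : ℝ, ∃ x ∈ S, x ∉ ball a d ∧ x ∉ ball b d ∧ x ∉ ball c d := by
      intro a b c
      obtain ⟨x, hx, hx2⟩ := Set.not_subset.1 (hcon a b c)
      simp only [mem_union, not_or] at hx2
      exact ⟨x, hx, hx2.1.1, hx2.1.2, hx2.2⟩
    obtain ⟨a, ha, -⟩ := h1 0 0 0
    obtain ⟨b, hb, hb1, -⟩ := h1 a a a
    obtain ⟨c, hc, hc1, hc2, -⟩ := h1 a b b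
    obtain ⟨e, he, he1, he2, he3⟩ := h1 a b c
    simp only [mem_ball, not_lt, Real.dist_eq] at hb1 hc1 hc2 he1 he2 he3
    exact h a ha b hb c hc e he (by rwa [abs_sub_comm]) (by rwa [abs_sub_comm])
      (by rwa [abs_sub_comm]) (by rwa [abs_sub_comm]) (by rwa [abs_sub_comm]) (by rwa [abs_sub_comm])
  obtain ⟨a, b, c, habc⟩ := key
  rcases le_or_gt d 0 with hd | hd
  · have : S ⊆ ∅ := by
      refine habc.trans ?_
      rw [ball_eq_empty.2 hd, ball_eq_empty.2 hd, ball_eq_empty.2 hd]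
      simp
    rw [subset_empty_iff.1 this, measure_empty]
    exact bot_le
  · calc volume S ≤ volume (ball a d ∪ ball b d ∪ ball c d) := measure_mono habc
      _ ≤ volume (ball a d) + volume (ball b d) + volume (ball c d) :=
        (measure_union_le _ _).trans (add_le_add (measure_union_le _ _) le_rfl)
      _ = ENNReal.ofReal (6 * d) := by
        rw [Real.volume_ball, Real.volume_ball, Real.volume_ball,
          ← ENNReal.ofReal_add (by positivity) (by positivity),
          ← ENNReal.ofReal_add (by positivity) (by positivity)]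
        congr 1
        ring

/-- If a quartic polynomial `D² t⁴ + 2 D W₀ t³ + …` is small at four separated points where
`2 D t + W₀` is bounded from below, these points cannot be too separated. -/
theorem four_points (D W0 c2 c1 c0 w ε d : ℝ) (hd : 0 < d) (a b c e : ℝ)
    (hab : d ≤ |a - b|) (hac : d ≤ |a - c|) (hae : d ≤ |a - e|) (hbc : d ≤ |b - c|)
    (hbe : d ≤ |b - e|) (hce : d ≤ |c - e|)
    (ha : |D ^ 2 * a ^ 4 + 2 * D * W0 * a ^ 3 + c2 * a ^ 2 + c1 * a + c0| ≤ ε)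
    (hb : |D ^ 2 * b ^ 4 + 2 * D * W0 * b ^ 3 + c2 * b ^ 2 + c1 * b + c0| ≤ ε)
    (hc : |D ^ 2 * c ^ 4 + 2 * D * W0 * c ^ 3 + c2 * c ^ 2 + c1 * c + c0| ≤ ε)
    (he : |D ^ 2 * e ^ 4 + 2 * D * W0 * e ^ 3 + c2 * e ^ 2 + c1 * e + c0| ≤ ε)
    (hWa : w ≤ 2 * D * a + W0) (hWb : w ≤ 2 * D * b + W0) (hWc : w ≤ 2 * D * c + W0)
    (hWe : w ≤ 2 * D * e + W0) : |D| * w * d ^ 3 ≤ 2 * ε := by
  obtain ⟨R, hR⟩ : ∃ R : ℝ → ℝ, R = fun t => D ^ 2 * t ^ 4 + 2 * D * W0 * t ^ 3 + c2 * t ^ 2 +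
    c1 * t + c0 := ⟨_, rfl⟩
  have hab0 : a - b ≠ 0 := fun h => by rw [h, abs_zero] at hab; linarith
  have hac0 : a - c ≠ 0 := fun h => by rw [h, abs_zero] at hac; linarith
  have hae0 : a - e ≠ 0 := fun h => by rw [h, abs_zero] at hae; linarith
  have hbc0 : b - c ≠ 0 := fun h => by rw [h, abs_zero] at hbc; linarith
  have hbe0 : b - e ≠ 0 := fun h => by rw [h, abs_zero] at hbe; linarith
  have hce0 : c - e ≠ 0 := fun h => by rw [h, abs_zero] at hce; linarith
  have key : R a / ((a - b) * (a - c) * (a - e)) - R b / ((a - b) * (b - c) * (b - e)) +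
      R c / ((a - c) * (b - c) * (c - e)) - R e / ((a - e) * (b - e) * (c - e)) =
      D / 2 * ((2 * D * a + W0) + (2 * D * b + W0) + (2 * D * c + W0) + (2 * D * e + W0)) := by
    rw [hR]
    field_simp
    ring
  have hε : 0 ≤ ε := (abs_nonneg _).trans ha
  have hbd : ∀ x y z u : ℝ, d ≤ |y| → d ≤ |z| → d ≤ |u| → |x| ≤ ε →
      |x / (y * z * u)| ≤ ε / d ^ 3 := by
    intro x y z u hy hz hu hx
    rw [abs_div, abs_mul, abs_mul]
    have h1 : d ^ 3 ≤ |y| * |z| * |u| := by
      calc d ^ 3 = d * d * d := by ring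
        _ ≤ _ := mul_le_mul (mul_le_mul hy hz hd.le (hd.le.trans hy)) hu hd.le (by positivity)
    exact div_le_div₀ hε hx (by positivity) h1
  have h1 := hbd (R a) (a - b) (a - c) (a - e) hab hac hae (by rw [hR]; exact ha)
  have h2 := hbd (R b) (a - b) (b - c) (b - e) hab hbc hbe (by rw [hR]; exact hb)
  have h3 := hbd (R c) (a - c) (b - c) (c - e) hac hbc hce (by rw [hR]; exact hc)
  have h4 := hbd (R e) (a - e) (b - e) (c - e) hae hbe hce (by rw [hR]; exact he)
  have h5 : |D / 2 * ((2 * D * a + W0) + (2 * D * b + W0) + (2 * D * c + W0) + (2 * D * e + W0))| ≤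
      4 * (ε / d ^ 3) := by
    rw [← key]
    have h6 := abs_le.1 h1
    have h7 := abs_le.1 h2
    have h8 := abs_le.1 h3
    have h9 := abs_le.1 h4
    rw [abs_le]
    constructor <;> linarith
  rw [abs_mul, abs_div, abs_two] at h5
  have h6 : 4 * w ≤ |(2 * D * a + W0) + (2 * D * b + W0) + (2 * D * c + W0) + (2 * D * e + W0)| := by
    refine le_trans ?_ (le_abs_self _)
    linarith
  have h7 : |D| / 2 * (4 * w) ≤ 4 * (ε / d ^ 3) :=
    (mul_le_mul_of_nonneg_left h6 (by positivity)).trans h5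
  have h8 : |D| / 2 * (4 * w) * d ^ 3 ≤ 4 * ε := by
    calc _ ≤ 4 * (ε / d ^ 3) * d ^ 3 := mul_le_mul_of_nonneg_right h7 (by positivity)
      _ = 4 * ε := by field_simp
  linarith

end Pool.Agent.H58.BR
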